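import Mathlib

/-!
# Subgroups of index `p` of open subgroups
-/

set_option autoImplicit false

namespace Pool.Agent.H517.S

variable {p : ℕ} [hp : Fact p.Prime]

theorem exists_core {G : Type*} [Group G] [TopologicalSpace G] [IsTopologicalGroup G]
    {H M : Subgroup G} (hMH : M ≤ H) (hMn : M.Normal) (hMi : ∃ a : ℕ, M.index = p ^ a)
    (hMo : IsOpen (M : Set G)) {N : Subgroup H} (hN : N.Normal) (hNo : IsOpen (N : Set H))
    (hNi : N.index = p) {I : Set G} (hIc : ∀ g x, x ∈ I → g * x * g⁻¹ ∈ I)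
    (hIM : ∀ x ∈ I, x ∈ M) (hIN : ∀ x : H, (x : G) ∈ I → x ∈ N) :
    ∃ C : Subgroup G, C.Normal ∧ IsOpen (C : Set G) ∧ (∃ b : ℕ, C.index = p ^ b) ∧
      (∀ x ∈ I, x ∈ C) ∧ ∀ x ∈ C, ∃ h : x ∈ H, (⟨x, h⟩ : H) ∈ N := by
  obtain ⟨a, ha⟩ := hMi
  have hp0 : p ≠ 0 := hp.out.ne_zero
  have hMf : M.FiniteIndex := ⟨by rw [ha]; exact pow_ne_zero _ hp0⟩
  have hHf : H.FiniteIndex := Subgroup.finiteIndex_of_le hMH
  have hHo : IsOpen (H : Set G) := Subgroup.isOpen_mono hMH hMo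
  have hNf : N.FiniteIndex := ⟨by rw [hNi]; exact hp0⟩
  set N1 : Subgroup G := N.map H.subtype with hN1
  have hN1f : N1.FiniteIndex := ⟨by
    rw [hN1, Subgroup.index_map_subtype]
    exact mul_ne_zero hNf.index_ne_zero hHf.index_ne_zero⟩
  have hN1o : IsOpen (N1 : Set G) := by
    have h1 : (N1 : Set G) = Subtype.val '' (N : Set H) := by
      rw [hN1, Subgroup.coe_map]
      rfl
    rw [h1]
    exact hHo.isOpenMap_subtype_val _ hNo
  have h0 : ∀ x, x ∈ N1 ⊓ M → ∃ h : x ∈ H, (⟨x, h⟩ : H) ∈ N := by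
    rintro x ⟨⟨y, hy, rfl⟩, -⟩
    exact ⟨y.2, hy⟩
  have h1 : ∀ x, x ∈ M → ∀ h : x ∈ H, (⟨x, h⟩ : H) ∈ N → x ∈ N1 ⊓ M :=
    fun x hx h hh => ⟨⟨⟨x, h⟩, hh, rfl⟩, hx⟩
  have hCf : (N1 ⊓ M).normalCore.FiniteIndex := inferInstance
  refine ⟨(N1 ⊓ M).normalCore, inferInstance, ?_, ?_, ?_, ?_⟩
  · refine Subgroup.isOpen_of_isClosed_of_finiteIndex _ ?_
    refine Subgroup.normalCore_isClosed _ ?_
    exact Subgroup.isClosed_of_isOpen _ (hN1o.inter hMo)
  · have h2 : IsPGroup p (G ⧸ (N1 ⊓ M).normalCore) := by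
      rw [IsPGroup]
      intro g
      obtain ⟨x, rfl⟩ := QuotientGroup.mk_surjective g
      refine ⟨a + 1, ?_⟩
      rw [← QuotientGroup.mk_pow, QuotientGroup.eq_one_iff]
      have hx : x ^ p ^ a ∈ M := by
        rw [← ha]; exact Subgroup.pow_index_mem _ _
      intro b
      have hy : b * x ^ p ^ a * b⁻¹ ∈ M := hMn.conj_mem _ hx b
      have e : b * x ^ p ^ (a + 1) * b⁻¹ = (b * x ^ p ^ a * b⁻¹) ^ p := by
        rw [conj_pow, ← pow_mul, ← pow_succ]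
      rw [e]
      refine h1 _ (M.pow_mem hy _) (H.pow_mem (hMH hy) _) ?_
      have h3 := N.pow_index_mem (⟨b * x ^ p ^ a * b⁻¹, hMH hy⟩ : H)
      rw [hNi] at h3
      exact h3
    obtain ⟨b, hb⟩ := IsPGroup.iff_card.1 h2
    exact ⟨b, hb⟩
  · intro x hx b
    exact h1 _ (hIM _ (hIc b x hx)) (hMH (hIM _ (hIc b x hx))) (hIN _ (hIc b x hx))
  · intro x hx
    exact h0 x (Subgroup.normalCore_le _ hx)

theorem exists_idx {P : Type*} [Group P] [Finite P] {a : ℕ}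
    (hP : Nat.card P = p ^ a) {Q : Subgroup P} (hQ : Q ≠ ⊤) :
    ∃ K : Subgroup P, K.Normal ∧ K.index = p ∧ Q ≤ K := by
  obtain ⟨m, hm, hQm⟩ := (Nat.dvd_prime_pow hp.out).1 (hP ▸ Subgroup.card_subgroup_dvd_card Q)
  have hma : m ≠ a := by
    rintro rfl
    exact hQ (Subgroup.eq_top_of_card_eq Q (by rw [hQm, hP]))
  obtain ⟨b, rfl⟩ : ∃ b, a = b + 1 := ⟨a - 1, by omega⟩
  obtain ⟨K, hK, hQK⟩ := Sylow.exists_subgroup_card_pow_prime_le (G := P) p (n := m) (m := b)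
    (by rw [hP]; exact pow_dvd_pow _ (by omega)) Q hQm (by omega)
  have h1 := K.card_mul_index
  rw [hK, hP, pow_succ] at h1
  have h2 : K.index = p := Nat.eq_of_mul_eq_mul_left (pow_pos hp.out.pos _) h1
  refine ⟨K, ?_, h2, hQK⟩
  refine Subgroup.normal_of_index_eq_minFac_card ?_
  rw [h2, hP, hp.out.pow_minFac (by omega)]

/-- an open normal subgroup of index `p` is the kernel of a homomorphism -/
theorem exists_hom {G : Type*} [Group G] [TopologicalSpace G] [IsTopologicalGroup G]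
    {N : Subgroup G} (hN : N.Normal) (hNo : IsOpen (N : Set G)) (hNi : N.index = p) :
    ∃ h : G → ZMod p, Continuous h ∧ (∀ σ τ, h (σ * τ) = h σ + h τ) ∧ ∀ σ, h σ = 0 ↔ σ ∈ N := by
  have hc : Nat.card (Multiplicative (ZMod p)) = p := by
    rw [Nat.card_congr Multiplicative.toAdd, Nat.card_zmod]
  have e : (G ⧸ N) ≃* Multiplicative (ZMod p) := mulEquivOfPrimeCardEq (p := p) hNi hc
  refine ⟨fun σ => Multiplicative.toAdd (e (QuotientGroup.mk σ)), ?_, ?_, ?_⟩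
  · have hd : DiscreteTopology (G ⧸ N) := QuotientGroup.discreteTopology hNo
    exact (continuous_of_discreteTopology (f := fun x : G ⧸ N => Multiplicative.toAdd (e x))).comp
      QuotientGroup.continuous_mk
  · intro σ τ
    beta_reduce
    rw [QuotientGroup.mk_mul, map_mul, toAdd_mul]
  · intro σ
    rw [toAdd_eq_zero, map_eq_one_iff e e.injective, QuotientGroup.eq_one_iff]

/-- **Density**: the abstract form. -/
theorem dense_of {G : Type*} [Group G] [TopologicalSpace G] [IsTopologicalGroup G]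
    {I : Set G} {D : Subgroup G}
    (hkey : ∀ h : G → ZMod p, Continuous h → (∀ σ τ, h (σ * τ) = h σ + h τ) →
      (∀ σ ∈ I, h σ = 0) → (∀ σ ∈ D, h σ = 0) → ∀ σ, h σ = 0)
    {C : Subgroup G} (hC : C.Normal) (hCo : IsOpen (C : Set G)) (hCi : ∃ b : ℕ, C.index = p ^ b)
    (hIC : ∀ x ∈ I, x ∈ C) (g : G) : ∃ δ ∈ D, δ⁻¹ * g ∈ C := by
  obtain ⟨b, hb⟩ := hCi
  have hf : C.FiniteIndex := ⟨by rw [hb]; exact pow_ne_zero _ hp.out.ne_zero⟩
  have hfin' : Finite (G ⧸ C) := inferInstance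
  set Q : Subgroup (G ⧸ C) := D.map (QuotientGroup.mk' C) with hQ
  by_cases h : Q = ⊤
  · have h1 : (QuotientGroup.mk' C g) ∈ Q := by rw [h]; trivial
    obtain ⟨δ, hδ, hδg⟩ := h1
    exact ⟨δ, hδ, QuotientGroup.eq.1 hδg⟩
  · exfalso
    obtain ⟨K, hKn, hK, hQK⟩ := exists_idx (P := G ⧸ C) (a := b) (by rw [← hb]; rfl) h
    have hle : C ≤ K.comap (QuotientGroup.mk' C) := by
      intro x hx
      rw [Subgroup.mem_comap]
      have : (QuotientGroup.mk' C) x = 1 := (QuotientGroup.eq_one_iff x).2 hx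
      rw [this]
      exact one_mem _
    have hi : (K.comap (QuotientGroup.mk' C)).index = p := by
      rw [Subgroup.index_comap_of_surjective _ (QuotientGroup.mk'_surjective _), hK]
    obtain ⟨f, hfc, hfm, hf⟩ := exists_hom (p := p) (N := K.comap (QuotientGroup.mk' C))
      inferInstance (Subgroup.isOpen_mono hle hCo) hi
    have h2 := hkey f hfc hfm (fun σ hσ => (hf σ).2 (hle (hIC σ hσ)))
      (fun σ hσ => (hf σ).2 (hQK ⟨σ, hσ, rfl⟩))
    have h3 : K.comap (QuotientGroup.mk' C) = ⊤ := by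
      rw [eq_top_iff]
      intro σ _
      exact (hf σ).1 (h2 σ)
    rw [h3, Subgroup.index_top] at hi
    exact hp.out.one_lt.ne hi

/-- **Density** for the open subgroups in the towers. -/
theorem tower {G : Type*} [Group G] [TopologicalSpace G] [IsTopologicalGroup G]
    {I : Set G} (hIc : ∀ g x, x ∈ I → g * x * g⁻¹ ∈ I) {D : Subgroup G}
    (hkey : ∀ h : G → ZMod p, Continuous h → (∀ σ τ, h (σ * τ) = h σ + h τ) →
      (∀ σ ∈ I, h σ = 0) → (∀ σ ∈ D, h σ = 0) → ∀ σ, h σ = 0)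
    {H M : Subgroup G} (hMH : M ≤ H) (hMn : M.Normal) (hMi : ∃ a : ℕ, M.index = p ^ a)
    (hMo : IsOpen (M : Set G)) (hIM : ∀ x ∈ I, x ∈ M)
    {N : Subgroup H} (hN : N.Normal) (hNo : IsOpen (N : Set H))
    (hNi : N.index = p) (hIN : ∀ x : H, (x : G) ∈ I → x ∈ N) :
    ∃ σ : H, (σ : G) ∈ D ∧ σ ∉ N := by
  obtain ⟨C, hC, hCo, hCi, hIC, hCN⟩ := exists_core hMH hMn hMi hMo hN hNo hNi hIc hIM hIN
  have hne : N ≠ ⊤ := by
    rintro rfl
    rw [Subgroup.index_top] at hNi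
    exact hp.out.one_lt.ne hNi
  obtain ⟨h, hh⟩ : ∃ h : H, h ∉ N := by
    by_contra hcon
    push Not at hcon
    exact hne (eq_top_iff.2 fun x _ => hcon x)
  obtain ⟨δ, hδ, hδh⟩ := dense_of hkey hC hCo hCi hIC (h : G)
  obtain ⟨hx, hxN⟩ := hCN _ hδh
  have hδH : δ ∈ H := by
    have h1 := H.mul_mem h.2 (H.inv_mem hx)
    have e : (h : G) * (δ⁻¹ * h)⁻¹ = δ := by group
    rwa [e] at h1
  refine ⟨⟨δ, hδH⟩, hδ, fun h1 => hh ?_⟩
  have h2 := N.mul_mem h1 hxN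
  have e : (⟨δ, hδH⟩ : H) * ⟨δ⁻¹ * (h : G), hx⟩ = h := by
    apply Subtype.ext
    show δ * (δ⁻¹ * (h : G)) = h
    group
  rwa [e] at h2

end Pool.Agent.H517.S
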