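import Pool.Agent.H517.S.RC
import Pool.Agent.H517.S.Core
import Pool.Graph.R_pool_sql_team_seeded_63374d34.N817.PF.Main

/-!
# Irreducible representations over the towers
-/

set_option autoImplicit false
set_option linter.unusedSectionVars false

namespace Pool.Agent.H517.S

open NumberField IsDedekindDomain Pool.Agent.W401.Cheb Pool.Agent.NH7.Sch
open IsLocalRing Matrix Module
open Pool.Agent.N817.PF (act InI)

variable {K : Type} [Field K] [NumberField K] {p : ℕ} [hp : Fact p.Prime]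

/-- the union of the inertia groups of the places above the primes `v ∉ S`, `v ≠ w` -/
def IS (S : Set (HeightOneSpectrum (𝓞 K))) (w : HeightOneSpectrum (𝓞 K)) : Set (GK K) :=
  {σ | ∃ (Q : Ideal (OO K)) (v : HeightOneSpectrum (𝓞 K)), Q.IsMaximal ∧
    Q.comap (algebraMap (𝓞 K) (OO K)) = v.asIdeal ∧ v ∉ S ∧ v ≠ w ∧ σ ∈ Inr Q}

theorem mv_comap (g : GK K) (Q : Ideal (OO K)) :
    (mv g Q).comap (algebraMap (𝓞 K) (OO K)) = Q.comap (algebraMap (𝓞 K) (OO K)) := by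
  ext x
  rw [Ideal.mem_comap, Ideal.mem_comap, mem_mv, smul_algebraMap]

theorem IS_conj {S : Set (HeightOneSpectrum (𝓞 K))} {w : HeightOneSpectrum (𝓞 K)} (g x : GK K)
    (hx : x ∈ IS S w) : g * x * g⁻¹ ∈ IS S w := by
  obtain ⟨Q, v, hQ, hQv, hvS, hvw, h⟩ := hx
  exact ⟨mv g Q, v, mv_max g hQ, by rw [mv_comap]; exact hQv, hvS, hvw, Inr_conj g h⟩

/-- no cyclic extension of degree `p` of a field in the tower is unramified outside `S` and split at
one place above `w` -/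
theorem no_split {S : Set (HeightOneSpectrum (𝓞 K))} {w : HeightOneSpectrum (𝓞 K)}
    (hrc : RC p S w) {H M : Subgroup (GK K)} (hMH : M ≤ H) (hMn : M.Normal)
    (hMi : ∃ a : ℕ, M.index = p ^ a) (hMo : IsOpen (M : Set (GK K))) (hIM : ∀ x ∈ IS S w, x ∈ M)
    {Q : Ideal (OO K)} (hQ : Q.IsMaximal) (hQw : Q.comap (algebraMap (𝓞 K) (OO K)) = w.asIdeal)
    (N : Subgroup H) (hN : N.Normal) (hNo : IsOpen (N : Set H))
    (hNi : N.index = p) (hIN : ∀ x : H, (x : GK K) ∈ IS S w → x ∈ N) :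
    ∃ σ : H, (σ : GK K) ∈ Dec Q ∧ σ ∉ N := by
  refine tower (p := p) (I := IS S w) (IS_conj (S := S) (w := w)) (D := Dec Q) ?_ hMH hMn hMi hMo
    hIM hN hNo hNi hIN
  intro h hc hm hI hD
  exact key_one hrc hc hm (fun Q' v hQ' hQv hvS hvw σ hσ => hI σ ⟨Q', v, hQ', hQv, hvS, hvw, hσ⟩)
    hQ hQw hD

/-- **The main theorem for subgroups of the Galois group.** -/
theorem fm {S : Set (HeightOneSpectrum (𝓞 K))} {w : HeightOneSpectrum (𝓞 K)}
    (hrc : RC p S w) {H M : Subgroup (GK K)} (hMH : M ≤ H) (hMn : M.Normal)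
    (hMi : ∃ a : ℕ, M.index = p ^ a) (hMo : IsOpen (M : Set (GK K))) (hIM : ∀ x ∈ IS S w, x ∈ M)
    {A : Type} [CommRing A] [IsLocalRing A] [IsNoetherianRing A] [TopologicalSpace A]
    (hA : IsAdic (maximalIdeal A)) (hfin : Finite (ResidueField A)) (hpA : (p : A) ∈ maximalIdeal A)
    {F : Type} [Field F] [IsAlgClosed F] [Algebra A F] (hpF : (p : F) ≠ 0)
    {n : ℕ} (hn : n ≠ 0) {ρ : H →* GL (Fin n) A}
    (hρ : ∀ i j, Continuous fun σ => (ρ σ : Matrix (Fin n) (Fin n) A) i j)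
    (hres : ∀ σ, ∃ m : ℕ, ∀ i j,
      (((ρ σ : Matrix (Fin n) (Fin n) A) - 1) ^ m) i j ∈ maximalIdeal A)
    (hur : ∀ σ : H, (σ : GK K) ∈ IS S w → ρ σ = 1)
    (hirr : ∀ W : Submodule F (Fin n → F), (∀ σ, ∀ x ∈ W, act F ρ σ x ∈ W) → W = ⊥ ∨ W = ⊤)
    {Q : Ideal (OO K)} (hQ : Q.IsMaximal) (hQw : Q.comap (algebraMap (𝓞 K) (OO K)) = w.asIdeal) :
    ∃ (L : Subgroup H) (W : Submodule F (Fin n → F)), IsOpen (L : Set H) ∧
      (∃ a : ℕ, L.index = p ^ a) ∧ (∀ σ ∈ L, ∀ x ∈ W, act F ρ σ x ∈ W) ∧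
      L.index * finrank F W = n ∧
      ∀ (D' : Subgroup H) (R : Set H) (X : Submodule F (Fin n → F)), R.Finite →
        (∀ δ : H, (δ : GK K) ∈ Dec Q → ∃ r ∈ R, r⁻¹ * δ ∈ D') →
        (∀ σ ∈ D', ∀ x ∈ X, act F ρ σ x ∈ X) → finrank F W ∣ finrank F X := by
  obtain ⟨L, W, h1, h2, h3, h4, h5⟩ := Pool.Agent.N817.PF.main hp.out hA hpA hfin hpF hρ
    (hres := hres) (I := {σ : H | (σ : GK K) ∈ IS S w}) hur (D := (Dec Q).comap H.subtype)
    (fun N hN hNo hNi hNI => no_split hrc hMH hMn hMi hMo hIM hQ hQw N hN hNo hNi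
      (fun x hx => hNI x hx)) hirr hn
  exact ⟨L, W, h1, h2, h3, h4, fun D' R X hR hδ hX => h5 D' R X hR (fun δ hδ' => hδ δ hδ') hX⟩

/-- representations induced from characters -/
theorem pot_ab {A : Type} [CommRing A] {F : Type} [Field F] [Algebra A F] {n : ℕ}
    {G : Type} [Group G] [TopologicalSpace G] [IsTopologicalGroup G] {ρ : G →* GL (Fin n) A}
    (hirr : ∀ W : Submodule F (Fin n → F), (∀ σ, ∀ x ∈ W, act F ρ σ x ∈ W) → W = ⊥ ∨ W = ⊤)
    {L : Subgroup G} (hLo : IsOpen (L : Set G)) (hLi : L.index ≠ 0) {W : Submodule F (Fin n → F)}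
    (hW : ∀ σ ∈ L, ∀ x ∈ W, act F ρ σ x ∈ W) (h1 : finrank F W = 1) :
    ∃ C : Subgroup G, C.Normal ∧ C.FiniteIndex ∧ IsOpen (C : Set G) ∧
      ∀ σ ∈ C, ∀ τ ∈ C, ∀ x, act F ρ σ (act F ρ τ x) = act F ρ τ (act F ρ σ x) := by
  have hLf : L.FiniteIndex := ⟨hLi⟩
  refine ⟨L.normalCore, inferInstance, inferInstance, ?_, ?_⟩
  · refine Subgroup.isOpen_of_isClosed_of_finiteIndex _ ?_
    exact Subgroup.normalCore_isClosed _ (Subgroup.isClosed_of_isOpen _ hLo)
  set U : Submodule F (Fin n → F) :=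
    { carrier := {x | ∀ σ ∈ L.normalCore, ∀ τ ∈ L.normalCore,
        act F ρ σ (act F ρ τ x) = act F ρ τ (act F ρ σ x)}
      zero_mem' := by intro σ _ τ _; simp
      add_mem' := by
        intro a b ha hb σ hσ τ hτ
        simp only [map_add, ha σ hσ τ hτ, hb σ hσ τ hτ]
      smul_mem' := by
        intro c a ha σ hσ τ hτ
        simp only [map_smul, ha σ hσ τ hτ] } with hU
  have hUs : ∀ g, ∀ x ∈ U, act F ρ g x ∈ U := by
    intro g x hx σ hσ τ hτ
    have hc : ∀ σ, act F ρ σ (act F ρ g x) = act F ρ g (act F ρ (g⁻¹ * σ * g) x) := by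
      intro σ
      rw [← Module.End.mul_apply, ← Module.End.mul_apply, ← map_mul, ← map_mul]
      congr 2
      group
    have hc' : ∀ σ y, act F ρ σ (act F ρ g y) = act F ρ g (act F ρ (g⁻¹ * σ * g) y) := by
      intro σ y
      rw [← Module.End.mul_apply, ← Module.End.mul_apply, ← map_mul, ← map_mul]
      congr 2
      group
    have hn : ∀ σ ∈ L.normalCore, g⁻¹ * σ * g ∈ L.normalCore := by
      intro σ hσ
      have := (Subgroup.normalCore_normal L).conj_mem σ hσ g⁻¹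
      rwa [inv_inv] at this
    rw [hc', hc', hc', hc', hx _ (hn σ hσ) _ (hn τ hτ)]
  have hWU : W ≤ U := by
    intro x hx σ hσ τ hτ
    obtain ⟨v, hv0, hv⟩ := finrank_eq_one_iff'.1 h1
    have hs : ∀ σ ∈ L.normalCore, ∃ c : F, ∀ y ∈ W, act F ρ σ y = c • y := by
      intro σ hσ
      obtain ⟨c, hc⟩ := hv ⟨act F ρ σ v, hW σ (Subgroup.normalCore_le _ hσ) v v.2⟩
      have hc' : c • (v : Fin n → F) = act F ρ σ v := congrArg Subtype.val hc
      refine ⟨c, fun y hy => ?_⟩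
      obtain ⟨d, hd⟩ := hv ⟨y, hy⟩
      have hd' : d • (v : Fin n → F) = y := congrArg Subtype.val hd
      rw [← hd', map_smul, ← hc', smul_comm]
    obtain ⟨c, hc⟩ := hs σ hσ
    obtain ⟨d, hd⟩ := hs τ hτ
    rw [hd x hx, hc x hx, map_smul, map_smul, hc x hx, hd x hx, smul_comm]
  rcases hirr U hUs with h | h
  · exfalso
    rw [h, le_bot_iff] at hWU
    rw [hWU, finrank_bot] at h1
    exact zero_ne_one h1
  · intro σ hσ τ hτ x
    have hx : x ∈ U := by rw [h]; trivial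
    exact hx σ hσ τ hτ

end Pool.Agent.H517.S
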