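import Pool.Agent.H517.S.Pot

/-!
# Potentially unramified representations have finite image
-/

set_option autoImplicit false
set_option linter.unusedSectionVars false

namespace Pool.Agent.H517.S

open NumberField IsDedekindDomain Pool.Agent.W401.Cheb Pool.Agent.NH7.Sch
open IsLocalRing Matrix Module
open scoped Pointwise
open Pool.Agent.N817.PF (InI cong mem_cong cong_normal cong_index cong_open cong_anti)
open Pool.Agent.NH7.GU (s_cnj Qv Qv_max Qv_comap)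

variable {K : Type} [Field K] [NumberField K] {p : ℕ} [hp : Fact p.Prime]
variable {A : Type} [CommRing A] [IsLocalRing A] [IsNoetherianRing A] [TopologicalSpace A] {n : ℕ}

/-- if the inertia group at one place above `w` has finite image, the image is virtually abelian -/
theorem pot_comm {S : Set (HeightOneSpectrum (𝓞 K))} {w : HeightOneSpectrum (𝓞 K)}
    (hrc : RC p S w) {H M : Subgroup (GK K)} (hMH : M ≤ H) (hMn : M.Normal)
    (hMi : ∃ a : ℕ, M.index = p ^ a) (hMo : IsOpen (M : Set (GK K))) (hIM : ∀ x ∈ IS S w, x ∈ M)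
    (hA : IsAdic (maximalIdeal A)) (hfin : Finite (ResidueField A)) (hpA : (p : A) ∈ maximalIdeal A)
    {ρ : H →* GL (Fin n) A}
    (hρ : ∀ i j, Continuous fun σ => (ρ σ : Matrix (Fin n) (Fin n) A) i j)
    (hres : ∀ σ, ∃ m : ℕ, ∀ i j,
      (((ρ σ : Matrix (Fin n) (Fin n) A) - 1) ^ m) i j ∈ maximalIdeal A)
    (hur : ∀ σ : H, (σ : GK K) ∈ IS S w → ρ σ = 1)
    {Q : Ideal (OO K)} (hQ : Q.IsMaximal) (hQw : Q.comap (algebraMap (𝓞 K) (OO K)) = w.asIdeal)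
    (hI : (ρ '' {σ : H | (σ : GK K) ∈ Inr Q}).Finite) :
    ∃ C : Subgroup H, C.Normal ∧ C.FiniteIndex ∧ IsOpen (C : Set H) ∧
      ∀ σ ∈ C, ∀ τ ∈ C, ρ σ * ρ τ = ρ τ * ρ σ := by
  classical
  have hns := no_split hrc hMH hMn hMi hMo hIM hQ hQw
  have hdense := fun (m : ℕ) (g : H) => Pool.Agent.N817.PF.dense hp.out hA hpA hfin hρ hres
    (I := {σ : H | (σ : GK K) ∈ IS S w}) (fun σ hσ => hur σ hσ)
    (D := (Dec Q).comap H.subtype) (fun N hN hNo hNi hNI => hns N hN hNo hNi (fun x hx => hNI x hx))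
    m g
  -- the congruence subgroup that meets the inertia group trivially
  have hm0 : ∃ m0 : ℕ, ∀ σ : H, (σ : GK K) ∈ Inr Q → σ ∈ cong ρ m0 → ρ σ = 1 := by
    have h1 : ∀ y : GL (Fin n) A, ∃ m : ℕ, y ≠ 1 →
        ¬ InI (maximalIdeal A ^ m) ((y : Matrix (Fin n) (Fin n) A) - 1) := by
      intro y
      by_contra hcon
      push Not at hcon
      exact (hcon 0).1 (gl_eq_one fun m => ⟨m, le_rfl, (hcon m).2⟩)
    choose f hf using h1
    obtain ⟨m0, hm0⟩ := (hI.image f).bddAbove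
    refine ⟨m0, fun σ hσ hσc => ?_⟩
    by_contra hne
    refine hf _ hne ?_
    have h2 : f (ρ σ) ≤ m0 := hm0 ⟨ρ σ, ⟨σ, hσ, rfl⟩, rfl⟩
    exact (mem_cong.1 hσc).mono (Ideal.pow_le_pow_right h2)
  obtain ⟨m0, hm0⟩ := hm0
  obtain ⟨b, hb⟩ := cong_index hp.out hpA hfin ρ hres m0
  refine ⟨cong ρ m0, cong_normal ρ m0, ⟨by rw [hb]; exact pow_ne_zero _ hp.out.ne_zero⟩,
    cong_open hA hρ m0, fun x hx y hy => ?_⟩
  have key : ρ (x * y * x⁻¹ * y⁻¹) = 1 := by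
    refine gl_eq_one fun m => ⟨max m m0, le_max_left _ _, ?_⟩
    rw [← mem_cong]
    have hn := cong_normal ρ (max m m0)
    have hle : cong ρ (max m m0) ≤ cong ρ m0 := cong_anti ρ (le_max_right _ _)
    obtain ⟨δ, hδ, hδx⟩ := hdense (max m m0) x
    obtain ⟨δ', hδ', hδy⟩ := hdense (max m m0) y
    have hδ0 : δ ∈ cong ρ m0 := by
      have h1 := (cong ρ m0).mul_mem hx ((cong ρ m0).inv_mem (hle hδx))
      have e : x * (δ⁻¹ * x)⁻¹ = δ := by group
      rwa [e] at h1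
    have hδ0' : δ' ∈ cong ρ m0 := by
      have h1 := (cong ρ m0).mul_mem hy ((cong ρ m0).inv_mem (hle hδy))
      have e : y * (δ'⁻¹ * y)⁻¹ = δ' := by group
      rwa [e] at h1
    have h2 : ρ (δ * δ' * δ⁻¹ * δ'⁻¹) = 1 := by
      refine hm0 _ (comm_inr hQ hQw hδ hδ') ?_
      exact (cong ρ m0).mul_mem ((cong ρ m0).mul_mem ((cong ρ m0).mul_mem hδ0 hδ0')
        ((cong ρ m0).inv_mem hδ0)) ((cong ρ m0).inv_mem hδ0')
    have h3 : δ * δ' * δ⁻¹ * δ'⁻¹ ∈ cong ρ (max m m0) := by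
      rw [mem_cong, h2]
      intro i j
      simp
    rw [← QuotientGroup.eq_one_iff] at h3 ⊢
    have h4 : (QuotientGroup.mk x : H ⧸ cong ρ (max m m0)) = QuotientGroup.mk δ :=
      (QuotientGroup.eq.2 hδx).symm
    have h5 : (QuotientGroup.mk y : H ⧸ cong ρ (max m m0)) = QuotientGroup.mk δ' :=
      (QuotientGroup.eq.2 hδy).symm
    rw [QuotientGroup.mk_mul, QuotientGroup.mk_mul, QuotientGroup.mk_mul, QuotientGroup.mk_inv,
      QuotientGroup.mk_inv] at h3 ⊢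
    rw [h4, h5]
    exact h3
  rw [map_mul, map_mul, map_mul, map_inv, map_inv] at key
  exact mul_inv_eq_iff_eq_mul.1 (mul_inv_eq_one.1 key)

/-- **Potentially unramified representations have finite image.** -/
theorem fin_image {S : Set (HeightOneSpectrum (𝓞 K))} (hSf : S.Finite)
    {w : HeightOneSpectrum (𝓞 K)}
    (hrc : RC p S w) {H M : Subgroup (GK K)} (hMH : M ≤ H) (hMn : M.Normal)
    (hMi : ∃ a : ℕ, M.index = p ^ a) (hMo : IsOpen (M : Set (GK K))) (hIM : ∀ x ∈ IS S w, x ∈ M)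
    (hA : IsAdic (maximalIdeal A)) (hfin : Finite (ResidueField A)) (hpA : (p : A) ∈ maximalIdeal A)
    {ρ : H →* GL (Fin n) A}
    (hρ : ∀ i j, Continuous fun σ => (ρ σ : Matrix (Fin n) (Fin n) A) i j)
    (hres : ∀ σ, ∃ m : ℕ, ∀ i j,
      (((ρ σ : Matrix (Fin n) (Fin n) A) - 1) ^ m) i j ∈ maximalIdeal A)
    (hur : ∀ σ : H, (σ : GK K) ∈ IS S w → ρ σ = 1)
    (hI : ∀ Q : Ideal (OO K), Q.IsMaximal → (ρ '' {σ : H | (σ : GK K) ∈ Inr Q}).Finite) :
    (Set.range ρ).Finite := by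
  classical
  have hMf : M.FiniteIndex := by
    obtain ⟨a, ha⟩ := hMi
    exact ⟨by rw [ha]; exact pow_ne_zero _ hp.out.ne_zero⟩
  obtain ⟨E, hE0, hE⟩ := exists_exp hSf hMH hMn hMf hur hI
  obtain ⟨Q, hQ, hQw⟩ := exists_Q (K := K) w
  obtain ⟨φ, hφD, hφ⟩ := exists_frob hQ hQw
  set E1 : ℕ := M.index * E with hE1
  have hE10 : E1 ≠ 0 := mul_ne_zero hMf.index_ne_zero hE0
  set E2 : ℕ := 2 * Nat.card (ClassGroup (𝓞 K)) * E1 with hE2
  have hcl0 : Nat.card (ClassGroup (𝓞 K)) ≠ 0 := Nat.card_pos.ne'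
  have hE20 : E2 ≠ 0 := mul_ne_zero (mul_ne_zero two_ne_zero hcl0) hE10
  obtain ⟨R, hRf, hR, hRr⟩ := exists_reps (N := M) (Inr Q : Set (GK K))
  set ρt : GK K → GL (Fin n) A := fun x => if h : x ∈ H then ρ ⟨x, h⟩ else 1 with hρt
  set T : Set (GL (Fin n) A) := ⋃ k ∈ Set.Iio E2, ⋃ r ∈ R,
    (fun x : GL (Fin n) A => ρt (φ ^ k * r) * x) '' (ρ '' {σ : H | (σ : GK K) ∈ Inr Q}) with hT
  have hTf : T.Finite := (Set.finite_Iio E2).biUnion fun k _ => hRf.biUnion fun r _ => (hI Q hQ).image _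
  have hNt : Finite T := hTf
  refine hTf.subset ?_
  rintro _ ⟨h, rfl⟩
  have key : ∀ m : ℕ, ∃ y ∈ T, InI (maximalIdeal A ^ m)
      (((y⁻¹ * ρ h : GL (Fin n) A) : Matrix (Fin n) (Fin n) A) - 1) := by
    intro m
    obtain ⟨C, hCn, hCo, hCi, hCH, hCmem⟩ := exists_core' (p := p) hMH hMn hMi hMo
      (cong_normal ρ m) (cong_open hA hρ m) (cong_index hp.out hpA hfin ρ hres m)
    have hone : ∀ σ : H, ρ σ = 1 → σ ∈ cong ρ m := by
      intro σ hσ
      rw [mem_cong, hσ]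
      intro i j
      simp
    -- `C` contains the inertia groups outside `S`
    have hCI : ∀ x ∈ IS S w, x ∈ C := by
      intro x hx
      refine hCmem x fun g => ⟨hIM _ (IS_conj g x hx), fun hh => hone _ (hur _ (IS_conj g x hx))⟩
    -- `C` contains the powers of the elements of the inertia groups
    have hCE : ∀ Q : Ideal (OO K), Q.IsMaximal → ∀ σ ∈ Inr Q, σ ^ E1 ∈ C := by
      intro Q hQ σ hσ
      refine hCmem _ fun g => ?_
      have h1 : (g * σ * g⁻¹) ^ M.index ∈ M := M.pow_index_mem _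
      have e : g * σ ^ E1 * g⁻¹ = ((g * σ * g⁻¹) ^ M.index) ^ E := by
        rw [hE1, ← pow_mul, conj_pow]
      have h2 : (g * σ * g⁻¹) ^ M.index ∈ Inr (mv g Q) :=
        (Inr (mv g Q)).pow_mem (Inr_conj g hσ) _
      rw [e]
      refine ⟨M.pow_mem h1 _, fun hh => hone _ ?_⟩
      have h3 := hE (mv g Q) (mv_max g hQ) ⟨_, hMH h1⟩ h2
      rw [← map_pow] at h3
      exact h3
    -- the subgroup generated by `C` and the inertia group
    set J : Subgroup (GK K) := Inr Q ⊔ C with hJ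
    have hJmem : ∀ x : GK K, x ∈ J ↔ ∃ τ ∈ Inr Q, τ⁻¹ * x ∈ C := by
      intro x
      have h1 : x ∈ J ↔ x ∈ ((Inr Q : Set (GK K)) * (C : Set (GK K))) := by
        rw [← Subgroup.mul_normal]
        exact Iff.rfl
      rw [h1, Set.mem_mul]
      constructor
      · rintro ⟨τ, hτ, c, hc, rfl⟩
        exact ⟨τ, hτ, by rw [inv_mul_cancel_left]; exact hc⟩
      · rintro ⟨τ, hτ, hc⟩
        exact ⟨τ, hτ, _, hc, by rw [mul_inv_cancel_left]⟩
    have hCJ : C ≤ J := le_sup_right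
    have hIJ : Inr Q ≤ J := le_sup_left
    have hJo : IsOpen (J : Set (GK K)) := Subgroup.isOpen_mono hCJ hCo
    have hdense : ∀ g : GK K, ∃ δ ∈ Dec Q, δ⁻¹ * g ∈ C := fun g =>
      dense_of (p := p) (I := IS S w) (D := Dec Q) (fun h hc hm hI hD => key_one hrc hc hm
        (fun Q' v hQ' hQv hvS hvw σ hσ => hI σ ⟨Q', v, hQ', hQv, hvS, hvw, hσ⟩) hQ hQw hD)
        hCn hCo hCi hCI g
    have hJn : J.Normal := by
      refine ⟨fun j hj g => ?_⟩
      obtain ⟨δ, hδ, hδg⟩ := hdense g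
      set c := δ⁻¹ * g with hc
      have hg : g = δ * c := by rw [hc]; group
      have hcj : c * j * c⁻¹ ∈ J := J.mul_mem (J.mul_mem (hCJ hδg) hj) (J.inv_mem (hCJ hδg))
      obtain ⟨τ, hτ, hτc⟩ := (hJmem _).1 hcj
      rw [hJmem]
      refine ⟨δ * τ * δ⁻¹, Inr_norm hδ hτ, ?_⟩
      have h2 := hCn.conj_mem _ hτc δ
      have e : (δ * τ * δ⁻¹)⁻¹ * (g * j * g⁻¹) = δ * (τ⁻¹ * (c * j * c⁻¹)) * δ⁻¹ := by
        rw [hg]
        group
      rw [e]
      exact h2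
    have hpow : ∀ g : GK K, ∃ l : ℕ, (φ ^ l)⁻¹ * g ∈ J := by
      intro g
      obtain ⟨δ, hδ, hδg⟩ := hdense g
      obtain ⟨l, τ, hτ, hl⟩ := proc hQ hQw hφD hφ hCn hCo hδ
      refine ⟨l, ?_⟩
      have e : (φ ^ l)⁻¹ * g = τ * ((φ ^ l * τ)⁻¹ * δ) * (δ⁻¹ * g) := by group
      rw [e]
      exact J.mul_mem (J.mul_mem (hIJ hτ) (hCJ hl)) (hCJ hδg)
    have hmk : ∀ g : GK K, ∃ l : ℕ, (QuotientGroup.mk g : GK K ⧸ J) = (QuotientGroup.mk φ) ^ l := by
      intro g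
      obtain ⟨l, hl⟩ := hpow g
      exact ⟨l, (QuotientGroup.eq.2 hl).symm⟩
    have hcomm : ∀ a b : GK K ⧸ J, a * b = b * a := by
      intro a b
      obtain ⟨a, rfl⟩ := QuotientGroup.mk_surjective a
      obtain ⟨b, rfl⟩ := QuotientGroup.mk_surjective b
      obtain ⟨l, hl⟩ := hmk a
      obtain ⟨l', hl'⟩ := hmk b
      rw [hl, hl', ← pow_add, ← pow_add, add_comm]
    let _ : CommGroup (GK K ⧸ J) :=
      { (inferInstance : Group (GK K ⧸ J)) with mul_comm := hcomm }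
    set J' : Subgroup (GK K) :=
      ((powMonoidHom E1 : (GK K ⧸ J) →* (GK K ⧸ J)).ker).comap (QuotientGroup.mk' J) with hJ'
    have hJ'mem : ∀ x : GK K, x ∈ J' ↔ x ^ E1 ∈ J := by
      intro x
      have h1 : x ∈ J' ↔ (QuotientGroup.mk' J x) ^ E1 = 1 := Iff.rfl
      rw [h1, ← map_pow, QuotientGroup.mk'_apply, QuotientGroup.eq_one_iff]
    have hJJ' : J ≤ J' := fun x hx => (hJ'mem x).2 (J.pow_mem hx _)
    have h2h := unr_exp (J := J') inferInstance (Subgroup.isOpen_mono hJJ' hJo)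
      (fun g g' => hJJ' (by
        rw [← QuotientGroup.eq_one_iff, QuotientGroup.mk_mul, QuotientGroup.mk_mul,
          QuotientGroup.mk_mul, QuotientGroup.mk_inv, QuotientGroup.mk_inv,
          hcomm (QuotientGroup.mk g), mul_assoc (QuotientGroup.mk g'), mul_inv_cancel, mul_one,
          mul_inv_cancel]))
      (fun Q' hQ' σ hσ => (hJ'mem σ).2 (hCJ (hCE Q' hQ' σ hσ))) φ
    have hφE : φ ^ E2 ∈ J := by
      have h3 := (hJ'mem _).1 h2h
      rwa [← pow_mul, ← hE2] at h3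
    -- the element `h`
    obtain ⟨l, hl⟩ := hpow (h : GK K)
    have hk : (φ ^ (l % E2))⁻¹ * (h : GK K) ∈ J := by
      have e : (φ ^ (l % E2))⁻¹ * (h : GK K) = (φ ^ E2) ^ (l / E2) * ((φ ^ l)⁻¹ * h) := by
        have e1 : φ ^ l = φ ^ (l % E2) * (φ ^ E2) ^ (l / E2) := by
          rw [← pow_mul, ← pow_add, Nat.mod_add_div]
        rw [e1, _root_.mul_inv_rev]
        group
      rw [e]
      exact J.mul_mem (J.pow_mem hφE _) hl
    obtain ⟨τ, hτ, hτc⟩ := (hJmem _).1 hk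
    obtain ⟨r, hr, hrτ⟩ := hRr τ hτ
    set c : GK K := τ⁻¹ * ((φ ^ (l % E2))⁻¹ * (h : GK K)) with hc
    have hxI : r⁻¹ * τ ∈ Inr Q := (Inr Q).mul_mem ((Inr Q).inv_mem (hR hr)) hτ
    have hh : (h : GK K) = (φ ^ (l % E2) * r) * (r⁻¹ * τ) * c := by
      rw [hc]
      group
    obtain ⟨hcH, hcc⟩ := hCH c hτc
    have htH : φ ^ (l % E2) * r ∈ H := by
      have e : φ ^ (l % E2) * r = (h : GK K) * c⁻¹ * (r⁻¹ * τ)⁻¹ := by
        conv_rhs => rw [hh]
        group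
      rw [e]
      exact mul_mem (mul_mem h.2 (inv_mem hcH)) (inv_mem (hMH hrτ))
    have hprod : h = ⟨φ ^ (l % E2) * r, htH⟩ * ⟨r⁻¹ * τ, hMH hrτ⟩ * ⟨c, hcH⟩ := Subtype.ext hh
    refine ⟨ρt (φ ^ (l % E2) * r) * ρ ⟨r⁻¹ * τ, hMH hrτ⟩, ?_, ?_⟩
    · have hlt : l % E2 ∈ Set.Iio E2 := Nat.mod_lt l (Nat.pos_of_ne_zero hE20)
      refine Set.mem_biUnion hlt (Set.mem_biUnion hr ?_)
      exact ⟨_, ⟨⟨r⁻¹ * τ, hMH hrτ⟩, hxI, rfl⟩, rfl⟩
    · have e : (ρt (φ ^ (l % E2) * r) * ρ ⟨r⁻¹ * τ, hMH hrτ⟩)⁻¹ * ρ h = ρ ⟨c, hcH⟩ := by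
        have e1 : ρt (φ ^ (l % E2) * r) = ρ ⟨φ ^ (l % E2) * r, htH⟩ := dif_pos htH
        rw [e1]
        conv_lhs => rw [hprod]
        simp only [map_mul]
        group
      rw [e]
      exact mem_cong.1 hcc
  choose y hy hy' using key
  obtain ⟨z, hz⟩ := Finite.exists_infinite_fiber (fun m : ℕ => (⟨y m, hy m⟩ : T))
  have hz' : ((fun m : ℕ => (⟨y m, hy m⟩ : T)) ⁻¹' {z}).Infinite := Set.infinite_coe_iff.1 hz
  have hone : (z : GL (Fin n) A)⁻¹ * ρ h = 1 := by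
    refine gl_eq_one fun m => ?_
    obtain ⟨m', hm', hmm⟩ := hz'.exists_gt m
    have hzm : y m' = z := congrArg Subtype.val hm'
    refine ⟨m', hmm.le, ?_⟩
    have h1 := hy' m'
    rwa [hzm] at h1
  have hfinal : ρ h = z := (inv_mul_eq_one.1 hone).symm
  rw [hfinal]
  exact z.2

end Pool.Agent.H517.S
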