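import Pool.Agent.H517.B.Lift

/-!
# Lifting of `p`-th powers modulo ideals prime to `p`
-/

set_option autoImplicit false

namespace Pool.Agent.H517.S

variable {R : Type} [CommRing R] {p : ℕ} [hp : Fact p.Prime]

theorem add_pow_two (y z : R) (n : ℕ) (hn : 2 ≤ n) :
    ∃ r : R, (y + z) ^ n = y ^ n + n * y ^ (n - 1) * z + z ^ 2 * r := by
  obtain ⟨q, rfl⟩ : ∃ q, n = q + 2 := ⟨n - 2, by omega⟩
  clear hn
  induction q with
  | zero => exact ⟨1, by norm_num; ring⟩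
  | succ q ih =>
    obtain ⟨r, hr⟩ := ih
    refine ⟨(q + 2) * y ^ (q + 1) + (y + z) * r, ?_⟩
    have h1 : q + 2 - 1 = q + 1 := by omega
    have h2 : q + 1 + 2 - 1 = q + 2 := by omega
    rw [h1] at hr
    rw [h2]
    have e : q + 1 + 2 = q + 2 + 1 := by omega
    rw [e, pow_succ, hr]
    push_cast
    ring

/-- an element prime to `𝔫` is invertible modulo `𝔫` -/
theorem exists_inv {𝔫 : Ideal R} {x : R} (hx : IsCoprime (Ideal.span {x}) 𝔫) :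
    ∃ u : R, x * u - 1 ∈ 𝔫 := by
  obtain ⟨a, ha, b, hb, hab1⟩ := Ideal.isCoprime_iff_exists.1 hx
  obtain ⟨c, rfl⟩ := Ideal.mem_span_singleton'.1 ha
  refine ⟨c, ?_⟩
  have h2 : x * c - 1 = - b := by
    have h3 : (1 : R) = c * x + b := hab1.symm
    rw [h3]; ring
  rw [h2]
  exact 𝔫.neg_mem hb

theorem coprime_of_inv {𝔫 : Ideal R} {x u : R} (hx : x * u - 1 ∈ 𝔫) :
    IsCoprime (Ideal.span {x}) 𝔫 := by
  refine Ideal.isCoprime_iff_exists.2 ⟨x * u, Ideal.mem_span_singleton'.2 ⟨u, by ring⟩,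
    -(x * u - 1), 𝔫.neg_mem hx, by ring⟩

/-- Lifting of `p`-th powers modulo an ideal prime to `p`. -/
theorem lift_tame {𝔫 : Ideal R} (hcop : IsCoprime (Ideal.span {(p : R)}) 𝔫) {x : R}
    (hx : IsCoprime (Ideal.span {x}) 𝔫) {y : R} (hxy : x - y ^ p ∈ 𝔫) (n : ℕ) :
    ∃ y' : R, x - y' ^ p ∈ 𝔫 ^ (n + 1) := by
  have hp2 : 2 ≤ p := hp.out.two_le
  induction n with
  | zero => exact ⟨y, by simpa using hxy⟩
  | succ n ih =>
    obtain ⟨y', hy'⟩ := ih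
    have h1 : x - y' ^ p ∈ 𝔫 := Ideal.pow_le_self (by omega) hy'
    obtain ⟨u, hu⟩ := exists_inv hx
    -- an inverse of `p y' ^ (p - 1)`
    obtain ⟨t, ht⟩ := exists_inv hcop
    have h2 : y' ^ (p - 1) * (y' * u) - 1 ∈ 𝔫 := by
      have e : y' ^ (p - 1) * (y' * u) - 1 = (x * u - 1) - (x - y' ^ p) * u := by
        have e2 : y' ^ (p - 1) * y' = y' ^ p := by
          rw [← pow_succ]; congr 1; omega
        have e3 : y' ^ (p - 1) * (y' * u) = y' ^ p * u := by rw [← mul_assoc, e2]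
        rw [e3]; ring
      rw [e]
      exact 𝔫.sub_mem hu (𝔫.mul_mem_right _ h1)
    have h3 : (p : R) * y' ^ (p - 1) * (t * (y' * u)) - 1 ∈ 𝔫 := by
      have e : (p : R) * y' ^ (p - 1) * (t * (y' * u)) - 1 =
          (p * t - 1) * (y' ^ (p - 1) * (y' * u)) + (y' ^ (p - 1) * (y' * u) - 1) := by ring
      rw [e]
      exact 𝔫.add_mem (𝔫.mul_mem_right _ ht) h2
    obtain ⟨s, hs⟩ : ∃ s : R, s = t * (y' * u) := ⟨_, rfl⟩
    rw [← hs] at h3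
    obtain ⟨r, hr⟩ := add_pow_two y' (s * (x - y' ^ p)) p hp2
    refine ⟨y' + s * (x - y' ^ p), ?_⟩
    obtain ⟨d, hd⟩ : ∃ d : R, d = x - y' ^ p := ⟨_, rfl⟩
    rw [hr]
    rw [← hd] at hy' ⊢
    have e : x - (y' ^ p + (p : R) * y' ^ (p - 1) * (s * d) + (s * d) ^ 2 * r) =
        -(d * ((p : R) * y' ^ (p - 1) * s - 1)) - d ^ 2 * (s ^ 2 * r) := by
      have e2 : x = d + y' ^ p := by rw [hd]; ring
      rw [e2]; ring
    rw [e]
    refine Ideal.sub_mem _ ((𝔫 ^ (n + 1 + 1)).neg_mem ?_) (Ideal.mul_mem_right _ _ ?_)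
    · rw [pow_succ 𝔫 (n + 1)]
      exact Ideal.mul_mem_mul hy' h3
    · have h4 : d ^ 2 ∈ (𝔫 ^ (n + 1)) ^ 2 := Ideal.pow_mem_pow hy' 2
      rw [← pow_mul] at h4
      exact Ideal.pow_le_pow_right (by omega) h4

/-- the Chinese remainder theorem -/
theorem crt {𝔞 𝔟 : Ideal R} (h : IsCoprime 𝔞 𝔟) (x y : R) :
    ∃ z : R, z - x ∈ 𝔞 ∧ z - y ∈ 𝔟 := by
  obtain ⟨a, ha, b, hb, hab⟩ := Ideal.isCoprime_iff_exists.1 h
  refine ⟨x * b + y * a, ?_, ?_⟩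
  · have e : x * b + y * a - x = (y - x) * a := by
      have e2 : b = 1 - a := by rw [← hab]; ring
      rw [e2]; ring
    rw [e]; exact Ideal.mul_mem_left _ _ ha
  · have e : x * b + y * a - y = (x - y) * b := by
      have e2 : a = 1 - b := by rw [← hab]; ring
      rw [e2]; ring
    rw [e]; exact Ideal.mul_mem_left _ _ hb

/-- `p`-th powers modulo `𝔟 𝔫` -/
theorem lift_mix {𝔞 𝔟 𝔫 : Ideal R} (hab : 𝔞 * 𝔟 = Ideal.span {(p : R)})
    (hcop : IsCoprime 𝔞 𝔟) (hn : IsCoprime (Ideal.span {(p : R)}) 𝔫) {x : R}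
    (hx : IsCoprime (Ideal.span {x}) (𝔟 * 𝔫)) {y : R}
    (hxy : x - y ^ p ∈ 𝔟 ^ 3 * 𝔫) (n : ℕ) : ∃ y' : R, x - y' ^ p ∈ (𝔟 * 𝔫) ^ (n + 1) := by
  have hxb : IsCoprime (Ideal.span {x}) 𝔟 := hx.of_mul_right_left
  have hxn : IsCoprime (Ideal.span {x}) 𝔫 := hx.of_mul_right_right
  obtain ⟨y1, h1⟩ := B.lift_all hab hcop hxb (Ideal.mul_le_left hxy) n
  obtain ⟨y2, h2⟩ := lift_tame hn hxn (Ideal.mul_le_right hxy) n
  have hbn : IsCoprime (𝔟 ^ (n + 1)) (𝔫 ^ (n + 1)) := by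
    refine IsCoprime.pow ?_
    rw [← hab] at hn
    exact hn.of_mul_left_right
  obtain ⟨z, hz1, hz2⟩ := crt hbn y1 y2
  have g1 : x - z ^ p ∈ 𝔟 ^ (n + 1) := by
    have e : x - z ^ p = (x - y1 ^ p) - (z ^ p - y1 ^ p) := by ring
    rw [e]
    refine Ideal.sub_mem _ (Ideal.pow_le_pow_right (by omega) h1) ?_
    obtain ⟨c, hc⟩ := sub_dvd_pow_sub_pow z y1 p
    rw [hc]
    exact Ideal.mul_mem_right _ _ hz1
  have g2 : x - z ^ p ∈ 𝔫 ^ (n + 1) := by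
    have e : x - z ^ p = (x - y2 ^ p) - (z ^ p - y2 ^ p) := by ring
    rw [e]
    refine Ideal.sub_mem _ h2 ?_
    obtain ⟨c, hc⟩ := sub_dvd_pow_sub_pow z y2 p
    rw [hc]
    exact Ideal.mul_mem_right _ _ hz2
  have g3 : x - z ^ p ∈ 𝔟 ^ (n + 1) ⊓ 𝔫 ^ (n + 1) := ⟨g1, g2⟩
  rw [Ideal.inf_eq_mul_of_isCoprime hbn, ← mul_pow] at g3
  exact ⟨z, g3⟩

end Pool.Agent.H517.S
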