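import Pool.Agent.H517.S.Key
import Pool.Agent.H517.S.Lift
import Pool.Agent.H517.B.Cls

/-!
# The condition on the ray class groups from the class group and the units outside `w`
-/

set_option autoImplicit false
set_option linter.unusedSectionVars false

namespace Pool.Agent.H517.S

open NumberField IsDedekindDomain
open Pool.Agent.Q92.AR (Dv prin Pr Pos prin_mul prin_inv prin_one prinHom)
open Pool.Agent.H517.B (prin_pow val_of_prin exists_bound val_le_of_mem val_eq_one_of_notMem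
  prin_of_span)

variable {K : Type} [Field K] [NumberField K] {p : ℕ} [hp : Fact p.Prime]

/-- The condition on the ray class groups. -/
theorem rc_of (hp2 : p = 2 → IsEmpty (K →+* ℝ)) {w : HeightOneSpectrum (𝓞 K)} {𝔪 : Ideal (𝓞 K)}
    (h0 : 𝔪 ≠ ⊥) (hcop : IsCoprime w.asIdeal 𝔪)
    (hcl : ∀ D : Dv K, ∃ (m : ℕ) (x : Kˣ) (k : ℤ), ¬ p ∣ m ∧
      m • D = prin x + k • Finsupp.single w 1)
    (hun : ∀ x : 𝓞 K, IsCoprime (Ideal.span {x}) 𝔪 → ∃ (α : 𝓞 K) (k : ℕ),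
      Ideal.span {α} = w.asIdeal ^ k ∧ ∀ n : ℕ, ∃ y : 𝓞 K, x * α - y ^ p ∈ 𝔪 ^ (n + 1)) :
    RC p {v | 𝔪 ≤ v.asIdeal} w := by
  classical
  have hnorm0 : Ideal.absNorm 𝔪 ≠ 0 := by
    rw [Ne, Ideal.absNorm_eq_zero_iff]
    exact h0
  refine ⟨Ideal.absNorm 𝔪, hnorm0, ?_⟩
  intro N hN hpN D hD
  obtain ⟨m, x, k, hpm, hx⟩ := hcl D
  have hvb : ∀ v : HeightOneSpectrum (𝓞 K), 𝔪 ≤ v.asIdeal → v ≠ w ∧ (N : 𝓞 K) ∈ v.asIdeal := by
    intro v hv
    refine ⟨?_, Pool.Agent.Q20.EX.nat_mem hpN (hv (Ideal.absNorm_mem 𝔪))⟩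
    rintro rfl
    have h1 := Ideal.isCoprime_iff_sup_eq.1 hcop
    rw [sup_eq_left.2 hv] at h1
    exact v.isPrime.ne_top h1
  -- the prime ideals which contain `𝔪`
  have hmax : ∀ P : Ideal (𝓞 K), P.IsMaximal → 𝔪 ≤ P → ∃ v : HeightOneSpectrum (𝓞 K),
      v.asIdeal = P := by
    intro P hP hbP
    refine ⟨⟨P, hP.isPrime, ?_⟩, rfl⟩
    rintro rfl
    exact h0 (le_bot_iff.1 hbP)
  have hxv : ∀ v : HeightOneSpectrum (𝓞 K), (N : 𝓞 K) ∈ v.asIdeal → v ≠ w → prin x v = 0 := by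
    intro v hv hvw
    have h1 := congrArg (fun E : Dv K => E v) hx
    simp only [Finsupp.smul_apply, Finsupp.add_apply] at h1
    rw [hD v hv, Finsupp.single_apply, if_neg (Ne.symm hvw), smul_zero, smul_zero, add_zero] at h1
    exact h1.symm
  -- the last step
  have fin : ∀ (x' y : Kˣ) (j : ℤ), m • D = prin x' + p • prin y + j • Finsupp.single w 1 →
      (∀ v : HeightOneSpectrum (𝓞 K), (N : 𝓞 K) ∈ v.asIdeal → v ≠ w →
        v.valuation K (x' : K) = 1) →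
      (∀ v : HeightOneSpectrum (𝓞 K), (N : 𝓞 K) ∈ v.asIdeal → 𝔪 ≤ v.asIdeal →
        v ≠ w → v.valuation K ((x' : K) - 1) ≤ v.valuation K (N : K)) →
      ∃ (m : ℕ) (x : Kˣ) (D' : Dv K) (k : ℤ), ¬ p ∣ m ∧ Pos (x : K) ∧
        (∀ v : HeightOneSpectrum (𝓞 K), (N : 𝓞 K) ∈ v.asIdeal → v ≠ w →
          v.valuation K (x : K) = 1) ∧
        (∀ v : HeightOneSpectrum (𝓞 K), (N : 𝓞 K) ∈ v.asIdeal →
          v ∈ {v : HeightOneSpectrum (𝓞 K) | 𝔪 ≤ v.asIdeal} → v ≠ w →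
          v.valuation K ((x : K) - 1) ≤ v.valuation K (N : K)) ∧
        m • D = prin x + p • D' + k • Finsupp.single w 1 := by
    intro x' y j hj hx'1 hx'N
    by_cases h2 : p = 2
    · have := hp2 h2
      exact ⟨m, x', prin y, j, hpm, fun φ => (this.false φ).elim, hx'1, hx'N, hj⟩
    refine ⟨2 * m, x' ^ 2, 2 • prin y, 2 * j, ?_, ?_, ?_, ?_, ?_⟩
    · intro h
      rcases (hp.out.dvd_mul).1 h with h1 | h1
      · exact h2 ((Nat.prime_dvd_prime_iff_eq hp.out Nat.prime_two).1 h1)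
      · exact hpm h1
    · intro φ
      rw [Units.val_pow_eq_pow_val, map_pow]
      have h1 : φ (x' : K) ≠ 0 := by
        rw [map_ne_zero]
        exact x'.ne_zero
      positivity
    · intro v hv hvw
      rw [Units.val_pow_eq_pow_val, map_pow, hx'1 v hv hvw, one_pow]
    · intro v hv hpv hvw
      have h1 : ((x' ^ 2 : Kˣ) : K) - 1 = ((x' : K) - 1) * ((x' : K) + 1) := by
        rw [Units.val_pow_eq_pow_val]; ring
      have h2 : v.valuation K ((x' : K) + 1) ≤ 1 := by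
        refine (Valuation.map_add _ _ _).trans ?_
        rw [hx'1 v hv hvw, map_one, max_self]
      rw [h1, map_mul]
      exact (mul_le_of_le_one_right' h2).trans (hx'N v hv hpv hvw)
    · rw [prin_pow]
      have h1 : (2 * m) • D = 2 • (m • D) := by rw [mul_smul]
      rw [h1, hj]
      ext v
      simp only [Finsupp.smul_apply, Finsupp.add_apply, nsmul_eq_mul, smul_eq_mul]
      push_cast
      ring
  by_cases h𝔟 : 𝔪 = ⊤
  · refine fin x 1 k (by rw [hx, prin_one, smul_zero, add_zero])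
      (fun v hv hvw => val_of_prin (hxv v hv hvw)) fun v hv hpv hvw => ?_
    rw [h𝔟, top_le_iff] at hpv
    exact absurd hpv v.isPrime.ne_top
  obtain ⟨n, hn⟩ := exists_bound (Units.mk0 (N : K) (by exact_mod_cast hN))
  rw [Units.val_mk0] at hn
  -- `x = a / b`
  have hden : Pool.Agent.Q84.AR.den (x : K) ⊔ 𝔪 ^ (n + 1) = ⊤ := by
    by_contra h
    obtain ⟨P, hP, hle⟩ := Ideal.exists_le_maximal _ h
    have h1 : 𝔪 ≤ P := hP.isPrime.le_of_pow_le (le_sup_right.trans hle)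
    obtain ⟨v, rfl⟩ := hmax P hP h1
    obtain ⟨h2, h3⟩ := hvb v h1
    obtain ⟨a, d, had⟩ := v.exists_primeCompl_mul_eq_of_integer (x : K)
      (val_of_prin (hxv v h3 h2)).le
    exact d.2 (hle (Ideal.mem_sup_left ⟨a, had⟩))
  rw [Ideal.eq_top_iff_one, Submodule.mem_sup] at hden
  obtain ⟨b, ⟨a, hab'⟩, c, hc, hbc⟩ := hden
  have hbv' : ∀ v : HeightOneSpectrum (𝓞 K), 𝔪 ≤ v.asIdeal → b ∉ v.asIdeal := by
    intro v hv hb
    apply v.isPrime.ne_top
    rw [Ideal.eq_top_iff_one, ← hbc]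
    exact v.asIdeal.add_mem hb ((Ideal.pow_le_self (by omega)).trans hv hc)
  have hav' : ∀ v : HeightOneSpectrum (𝓞 K), 𝔪 ≤ v.asIdeal → a ∉ v.asIdeal := by
    intro v hv
    obtain ⟨h2, h3⟩ := hvb v hv
    rw [← HeightOneSpectrum.valuation_eq_one_iff_notMem (K := K), ← hab', map_mul,
      val_of_prin (hxv v h3 h2), one_mul]
    exact val_eq_one_of_notMem (hbv' v hv)
  have hcopa : IsCoprime (Ideal.span {a}) 𝔪 := by
    rw [Ideal.isCoprime_iff_sup_eq]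
    by_contra h
    obtain ⟨P, hP, hle⟩ := Ideal.exists_le_maximal _ h
    obtain ⟨v, rfl⟩ := hmax P hP (le_sup_right.trans hle)
    exact hav' v (le_sup_right.trans hle)
      (le_sup_left.trans hle (Ideal.mem_span_singleton_self a))
  obtain ⟨α, k1, hα, hαy⟩ := hun a hcopa
  have hcop2 : IsCoprime (Ideal.span {a * α}) 𝔪 := by
    rw [← Ideal.span_singleton_mul_span_singleton, hα]
    exact hcopa.mul_left hcop.pow_left
  obtain ⟨y', hy'⟩ := hαy n
  -- the approximation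
  set T : Finset (HeightOneSpectrum (𝓞 K)) :=
    (Pool.Agent.Q125.AR.finite_dvd (F := K) hN).toFinset.filter fun v => ¬ 𝔪 ≤ v.asIdeal with hT
  have hcop3 : IsCoprime (∏ v ∈ T, v.asIdeal) (𝔪 ^ (n + 1)) := by
    refine IsCoprime.prod_left fun v hv => IsCoprime.pow_right ?_
    rw [Ideal.isCoprime_iff_sup_eq]
    have h1 : ¬ 𝔪 ≤ v.asIdeal := (Finset.mem_filter.1 hv).2
    exact v.isMaximal.1.2 _ (lt_of_le_of_ne le_sup_left fun h => h1 (by rw [h]; exact le_sup_right))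
  obtain ⟨y0, hy0N, hy0b⟩ := crt hcop3 1 y'
  have hy0p : a * α - y0 ^ p ∈ 𝔪 ^ (n + 1) := by
    have h1 : a * α - y0 ^ p = (a * α - y' ^ p) - (y0 ^ p - y' ^ p) := by ring
    rw [h1]
    refine Ideal.sub_mem _ hy' ?_
    obtain ⟨z, hz⟩ := sub_dvd_pow_sub_pow y0 y' p
    rw [hz]
    exact Ideal.mul_mem_right _ _ hy0b
  have hy0v : ∀ v : HeightOneSpectrum (𝓞 K), 𝔪 ≤ v.asIdeal → y0 ∉ v.asIdeal := by
    intro v hv hy
    have h1 : a * α ∈ v.asIdeal := by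
      have h2 : a * α = (a * α - y0 ^ p) + y0 ^ p := by ring
      rw [h2]
      exact v.asIdeal.add_mem (((Ideal.pow_le_self (by omega)).trans hv) hy0p)
        (v.asIdeal.pow_mem_of_mem hy _ hp.out.pos)
    have h3 := Ideal.isCoprime_iff_sup_eq.1 hcop2
    have h4 : Ideal.span {a * α} ⊔ 𝔪 ≤ v.asIdeal :=
      sup_le ((Ideal.span_singleton_le_iff_mem _).2 h1) hv
    rw [h3, top_le_iff] at h4
    exact v.isPrime.ne_top h4
  obtain ⟨P, hP, hbP⟩ := Ideal.exists_le_maximal _ h𝔟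
  obtain ⟨v₀, rfl⟩ := hmax P hP hbP
  have hy00 : (y0 : K) ≠ 0 := by
    intro h
    have h1 : y0 = 0 := by exact_mod_cast h
    exact hy0v v₀ hbP (h1 ▸ v₀.asIdeal.zero_mem)
  have hα0 : (α : K) ≠ 0 := by
    intro h
    have h1 : α = 0 := by exact_mod_cast h
    rw [h1, Ideal.span_singleton_zero] at hα
    exact pow_ne_zero k1 w.ne_bot hα.symm
  set αu : Kˣ := Units.mk0 (α : K) hα0 with hαu
  set yu : Kˣ := Units.mk0 (y0 : K) hy00 with hyu
  have hαprin := prin_of_span hα (x := αu) rfl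
  set x' : Kˣ := x * αu * (yu ^ p)⁻¹ with hx'
  have hαv : ∀ v : HeightOneSpectrum (𝓞 K), v ≠ w → v.valuation K (α : K) = 1 := by
    intro v hvw
    have h1 : prin αu v = 0 := by
      rw [hαprin, Finsupp.smul_apply, Finsupp.single_apply, if_neg (Ne.symm hvw), smul_zero]
    exact val_of_prin h1
  have hyv : ∀ v : HeightOneSpectrum (𝓞 K), (N : 𝓞 K) ∈ v.asIdeal → v ≠ w →
      v.valuation K (y0 : K) = 1 := by
    intro v hv hvw
    apply val_eq_one_of_notMem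
    by_cases hpv : 𝔪 ≤ v.asIdeal
    · exact hy0v v hpv
    · intro hy
      have hvT : v ∈ T := Finset.mem_filter.2 ⟨(Set.Finite.mem_toFinset _).2 hv, hpv⟩
      have h1 : y0 - 1 ∈ v.asIdeal := Ideal.le_of_dvd (Finset.dvd_prod_of_mem _ hvT) hy0N
      apply v.isPrime.ne_top
      rw [Ideal.eq_top_iff_one]
      have h2 : (1 : 𝓞 K) = y0 - (y0 - 1) := by ring
      rw [h2]
      exact v.asIdeal.sub_mem hy h1
  have hx'1 : ∀ v : HeightOneSpectrum (𝓞 K), (N : 𝓞 K) ∈ v.asIdeal → v ≠ w →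
      v.valuation K (x' : K) = 1 := by
    intro v hv hvw
    rw [hx', Units.val_mul, Units.val_mul, Units.val_inv_eq_inv_val, Units.val_pow_eq_pow_val,
      map_mul, map_mul, map_inv₀, map_pow, val_of_prin (hxv v hv hvw), hαu, hyu, Units.val_mk0,
      Units.val_mk0, hαv v hvw, hyv v hv hvw]
    simp
  have hx'N : ∀ v : HeightOneSpectrum (𝓞 K), (N : 𝓞 K) ∈ v.asIdeal → 𝔪 ≤ v.asIdeal →
      v ≠ w → v.valuation K ((x' : K) - 1) ≤ v.valuation K (N : K) := by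
    intro v hv hb hvw
    have hb0 : (b : K) ≠ 0 := by
      intro h
      have h1 : b = 0 := by exact_mod_cast h
      exact hbv' v hb (h1 ▸ v.asIdeal.zero_mem)
    have h1 : (x' : K) - 1 = ((a * α - b * y0 ^ p : 𝓞 K) : K) / ((b * y0 ^ p : 𝓞 K) : K) := by
      have h2 : (x : K) = a / b := by
        rw [eq_div_iff hb0]
        exact hab'
      rw [hx', Units.val_mul, Units.val_mul, Units.val_inv_eq_inv_val, Units.val_pow_eq_pow_val,
        h2, hαu, hyu, Units.val_mk0, Units.val_mk0]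
      push_cast
      field_simp
    have h3 : v.valuation K ((b * y0 ^ p : 𝓞 K) : K) = 1 := by
      apply val_eq_one_of_notMem
      intro h4
      rcases v.isPrime.mem_or_mem h4 with h5 | h5
      · exact hbv' v hb h5
      · exact hy0v v hb (v.isPrime.mem_of_pow_mem _ h5)
    rw [h1, map_div₀, h3, div_one]
    refine (val_le_of_mem (n := n) ?_).trans (hn v)
    have h5 : a * α - b * y0 ^ p = (a * α - y0 ^ p) + c * y0 ^ p := by
      have h6 : b = 1 - c := by rw [← hbc]; ring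
      rw [h6]; ring
    rw [h5]
    have h7 : 𝔪 ^ (n + 1) ≤ v.asIdeal ^ n :=
      (Ideal.pow_le_pow_right (by omega)).trans (Ideal.pow_right_mono hb n)
    exact Ideal.add_mem _ (h7 hy0p) (Ideal.mul_mem_right _ _ (h7 hc))
  refine fin x' yu (k - k1) ?_ hx'1 hx'N
  rw [hx', prin_mul, prin_mul, prin_inv, prin_pow, hαprin, hx]
  ext v
  simp only [Finsupp.smul_apply, Finsupp.add_apply, Finsupp.neg_apply, nsmul_eq_mul,
    smul_eq_mul]
  push_cast
  ring

/-- **The condition on the ray class groups**, with primes not above `p`. -/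
theorem rc_all (hp2 : p = 2 → IsEmpty (K →+* ℝ)) {w : HeightOneSpectrum (𝓞 K)} {e : ℕ}
    {𝔟 𝔫 : Ideal (𝓞 K)}
    (hab : w.asIdeal ^ e * 𝔟 = Ideal.span {(p : 𝓞 K)}) (hcop : IsCoprime w.asIdeal 𝔟)
    (h0 : 𝔫 ≠ ⊥) (hn : IsCoprime (Ideal.span {(p : 𝓞 K)}) 𝔫) (hwp : (p : 𝓞 K) ∈ w.asIdeal)
    (hcl : ∀ D : Dv K, ∃ (m : ℕ) (x : Kˣ) (k : ℤ), ¬ p ∣ m ∧
      m • D = prin x + k • Finsupp.single w 1)
    (hun : ∀ x : 𝓞 K, IsCoprime (Ideal.span {x}) (𝔟 * 𝔫) → ∃ (α y : 𝓞 K) (k : ℕ),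
      Ideal.span {α} = w.asIdeal ^ k ∧ x * α - y ^ p ∈ 𝔟 ^ 3 * 𝔫) :
    RC p {v | (p : 𝓞 K) ∈ v.asIdeal ∨ 𝔫 ≤ v.asIdeal} w := by
  have hp0 : (p : 𝓞 K) ≠ 0 := by exact_mod_cast hp.out.ne_zero
  have hpb : (p : 𝓞 K) ∈ 𝔟 := by
    have h2 : (p : 𝓞 K) ∈ w.asIdeal ^ e * 𝔟 := by
      rw [hab]; exact Ideal.mem_span_singleton_self _
    exact Ideal.mul_le_right h2
  have hb0 : 𝔟 ≠ ⊥ := by
    rintro rfl
    exact hp0 hpb
  have hwn : IsCoprime w.asIdeal 𝔫 := by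
    rw [Ideal.isCoprime_iff_sup_eq] at hn ⊢
    rw [eq_top_iff, ← hn]
    exact sup_le_sup ((Ideal.span_singleton_le_iff_mem _).2 hwp) le_rfl
  have h1 := rc_of hp2 (w := w) (𝔪 := 𝔟 * 𝔫) (mul_ne_zero hb0 h0) (hcop.mul_right hwn) hcl
    (fun x hx => by
      obtain ⟨α, y, k, hα, hy⟩ := hun x hx
      refine ⟨α, k, hα, fun n => lift_mix hab hcop.pow_left hn ?_ hy n⟩
      rw [← Ideal.span_singleton_mul_span_singleton, hα]
      exact hx.mul_left (hcop.mul_right hwn).pow_left)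
  obtain ⟨N₁, hN₁, h2⟩ := h1
  refine ⟨N₁, hN₁, fun N hN hNN D hD => ?_⟩
  obtain ⟨m, x, D', k, c1, c2, c3, c4, c5⟩ := h2 N hN hNN D hD
  refine ⟨m, x, D', k, c1, c2, c3, fun v hv hvS hvw => c4 v hv ?_ hvw, c5⟩
  change 𝔟 * 𝔫 ≤ v.asIdeal
  rcases hvS with h3 | h3
  · have h4 : w.asIdeal ^ e * 𝔟 ≤ v.asIdeal := by
      rw [hab, Ideal.span_singleton_le_iff_mem]; exact h3
    rcases (v.isPrime.mul_le).1 h4 with h5 | h5
    · exfalso
      have h6 : w.asIdeal ≤ v.asIdeal := v.isPrime.le_of_pow_le h5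
      exact hvw (HeightOneSpectrum.ext (w.isMaximal.eq_of_le v.isPrime.ne_top h6)).symm
    · exact Ideal.mul_le_left.trans h5
  · exact Ideal.mul_le_right.trans h3

end Pool.Agent.H517.S
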