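import Mathlib

set_option autoImplicit false

namespace Pool.Agent.H517.S

open NumberField IsDedekindDomain

theorem cyc {C : Type*} [CommGroup C] [IsCyclic C] [Finite C] {p : ℕ} [hp : Fact p.Prime] (g : C)
    (hg : p ∣ Nat.card C → ∀ y : C, y ^ p ≠ g) (x : C) : ∃ (k : ℕ) (y : C), x * g ^ k = y ^ p := by
  by_cases hd : p ∣ Nat.card C
  · obtain ⟨c, hc⟩ := IsCyclic.exists_monoid_generator (α := C)
    obtain ⟨a, ha⟩ := Submonoid.mem_powers_iff _ _ |>.1 (hc g)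
    obtain ⟨b, hb⟩ := Submonoid.mem_powers_iff _ _ |>.1 (hc x)
    have hpa : (a : ZMod p) ≠ 0 := by
      intro h0
      obtain ⟨t, ht⟩ := (ZMod.natCast_eq_zero_iff a p).1 h0
      apply hg hd (c ^ t)
      rw [← ha, ht, ← pow_mul, mul_comm]
    obtain ⟨k, hk⟩ : ∃ k : ℕ, k = (-(b : ZMod p) * (a : ZMod p)⁻¹).val := ⟨_, rfl⟩
    have h1 : ((b + k * a : ℕ) : ZMod p) = 0 := by
      push_cast
      rw [hk, ZMod.natCast_zmod_val]
      field_simp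
      ring
    obtain ⟨t, ht⟩ := (ZMod.natCast_eq_zero_iff _ p).1 h1
    refine ⟨k, c ^ t, ?_⟩
    rw [← ha, ← hb, ← pow_mul, ← pow_add, mul_comm a k, ht, ← pow_mul, mul_comm]
  · have hco : (Nat.card C).Coprime p := ((Nat.Prime.coprime_iff_not_dvd hp.out).2 hd).symm
    refine ⟨0, (powCoprime hco).symm x, ?_⟩
    rw [pow_zero, mul_one]
    exact ((powCoprime hco).apply_symm_apply x).symm

theorem zmod_pow {p q : ℕ} [hp : Fact p.Prime] [hq : Fact q.Prime] (hpq : p ≠ q)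
    (hc : q % p = 1 → ∀ y : ZMod q, y ^ p ≠ p) (n : ℤ) (hn : ¬ (q : ℤ) ∣ n) :
    ∃ (k : ℕ) (y : ℤ), (q : ℤ) ∣ n * p ^ k - y ^ p := by
  have hp0 : (p : ZMod q) ≠ 0 := by
    rw [Ne, ZMod.natCast_eq_zero_iff]
    intro h
    exact hpq ((Nat.prime_dvd_prime_iff_eq hq.out hp.out).1 h).symm
  have hn0 : (n : ZMod q) ≠ 0 := by
    rwa [Ne, ZMod.intCast_zmod_eq_zero_iff_dvd]
  obtain ⟨k, y, hky⟩ := cyc (C := (ZMod q)ˣ) (p := p) (Units.mk0 (p : ZMod q) hp0) (by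
    intro hd y hy
    rw [Nat.card_eq_fintype_card, ZMod.card_units_eq_totient, Nat.totient_prime hq.out] at hd
    refine hc ?_ (y : ZMod q) ?_
    · obtain ⟨t, ht⟩ := hd
      have h1 := hq.out.one_lt
      have h2 : q = 1 + p * t := by omega
      rw [h2, Nat.add_mul_mod_self_left]
      exact Nat.mod_eq_of_lt hp.out.one_lt
    · have := congrArg (fun u : (ZMod q)ˣ => (u : ZMod q)) hy
      simpa using this) (Units.mk0 (n : ZMod q) hn0)
  refine ⟨k, (y : ZMod q).val, ?_⟩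
  rw [← ZMod.intCast_zmod_eq_zero_iff_dvd]
  have h1 := congrArg (fun u : (ZMod q)ˣ => (u : ZMod q)) hky
  push_cast at h1 ⊢
  simp only [Units.val_mk0] at h1
  rw [h1, ZMod.natCast_zmod_val, sub_self]

theorem exists_int_rat (x : 𝓞 ℚ) : ∃ n : ℤ, x = n := by
  refine ⟨Rat.ringOfIntegersEquiv x, ?_⟩
  apply Rat.ringOfIntegersEquiv.injective
  rw [map_intCast]
  simp

theorem mem_iff_rat {q : ℕ} (hq : q.Prime) {v : HeightOneSpectrum (𝓞 ℚ)}
    (hv : (q : 𝓞 ℚ) ∈ v.asIdeal) (n : ℤ) : (n : 𝓞 ℚ) ∈ v.asIdeal ↔ (q : ℤ) ∣ n := by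
  constructor
  · intro hn
    by_contra hd
    have h1 : IsCoprime (q : ℤ) n := (Nat.prime_iff_prime_int.1 hq).coprime_iff_not_dvd.2 hd
    obtain ⟨a, b, hab⟩ := h1
    apply v.isPrime.ne_top
    rw [Ideal.eq_top_iff_one]
    have h2 : (1 : 𝓞 ℚ) = a * q + b * n := by
      have := congrArg (Int.cast : ℤ → 𝓞 ℚ) hab
      push_cast at this
      exact this.symm
    rw [h2]
    exact Ideal.add_mem _ (Ideal.mul_mem_left _ _ hv) (Ideal.mul_mem_left _ _ hn)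
  · rintro ⟨m, rfl⟩
    push_cast
    exact Ideal.mul_mem_right _ _ hv

theorem eq_span_rat {q : ℕ} (hq : q.Prime) {v : HeightOneSpectrum (𝓞 ℚ)}
    (hv : (q : 𝓞 ℚ) ∈ v.asIdeal) : v.asIdeal = Ideal.span {(q : 𝓞 ℚ)} := by
  ext x
  obtain ⟨n, rfl⟩ := exists_int_rat x
  rw [mem_iff_rat hq hv, Ideal.mem_span_singleton]
  constructor
  · rintro ⟨m, rfl⟩
    exact ⟨m, by push_cast; ring⟩
  · rintro ⟨y, hy⟩
    obtain ⟨m, rfl⟩ := exists_int_rat y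
    exact ⟨m, by exact_mod_cast hy⟩

theorem pid_rat : IsPrincipalIdealRing (𝓞 ℚ) :=
  IsPrincipalIdealRing.of_surjective Rat.ringOfIntegersEquiv.symm.toRingHom
    Rat.ringOfIntegersEquiv.symm.surjective

theorem cls_rat (C : ClassGroup (𝓞 ℚ)) : C = 1 := by
  have := pid_rat
  obtain ⟨I, rfl⟩ := ClassGroup.mk0_surjective C
  rw [ClassGroup.mk0_eq_one_iff]
  exact IsPrincipalIdealRing.principal _

/-- The condition on the units for `ℚ`. -/
theorem units_rat {p q : ℕ} [hp : Fact p.Prime] [hq : Fact q.Prime] (hpq : p ≠ q)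
    (hc : q % p = 1 → ∀ y : ZMod q, y ^ p ≠ p) {w v : HeightOneSpectrum (𝓞 ℚ)}
    (hw : (p : 𝓞 ℚ) ∈ w.asIdeal) (hv : (q : 𝓞 ℚ) ∈ v.asIdeal) (x : 𝓞 ℚ)
    (hx : IsCoprime (Ideal.span {x}) v.asIdeal) :
    ∃ (α y : 𝓞 ℚ) (k : ℕ), Ideal.span {α} = w.asIdeal ^ k ∧ x * α - y ^ p ∈ v.asIdeal := by
  obtain ⟨n, rfl⟩ := exists_int_rat x
  have hn : ¬ (q : ℤ) ∣ n := by
    intro h
    have h1 := Ideal.isCoprime_iff_sup_eq.1 hx
    rw [sup_eq_right.2 ((Ideal.span_singleton_le_iff_mem _).2 ((mem_iff_rat hq.out hv n).2 h))] at h1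
    exact v.isPrime.ne_top h1
  obtain ⟨k, y, hky⟩ := zmod_pow hpq hc n hn
  refine ⟨(p : 𝓞 ℚ) ^ k, y, k, ?_, ?_⟩
  · rw [eq_span_rat hp.out hw, Ideal.span_singleton_pow]
  · have h1 := (mem_iff_rat hq.out hv _).2 hky
    push_cast at h1
    exact h1

end Pool.Agent.H517.S
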