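import Pool.Agent.H517.B.Fam4
import Pool.Agent.H517.S.RC
import Pool.Agent.H517.S.Rat

/-!
# The condition `Generates` and its families
-/

set_option autoImplicit false

namespace Pool.Agent.H517.S

open NumberField IsDedekindDomain Module

section def2

variable {K : Type} [Field K] [NumberField K]

/-- The class of a prime. -/
noncomputable def cl (w : HeightOneSpectrum (𝓞 K)) : ClassGroup (𝓞 K) :=
  ClassGroup.mk0 ⟨w.asIdeal, mem_nonZeroDivisors_iff_ne_zero.2 w.ne_bot⟩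

/-- The place `w` lies above `p`, those in `S` do not, the class group modulo the class of `w` has order
prime to `p` and, `(p) = w ^ e 𝔟` with `𝔟` prime to `w` and `𝔫` the product of the primes in `S`,
the group `(O / 𝔟 ^ 3 𝔫)ˣ` is generated by the `p`-th powers and the images of the elements `α` of
`O` for which `(α)` is a power of `w`. -/
structure Generates (p : ℕ) (S : Finset (HeightOneSpectrum (𝓞 K))) (w : HeightOneSpectrum (𝓞 K)) :
    Prop where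
  above : (p : 𝓞 K) ∈ w.asIdeal
  tame : ∀ v ∈ S, (p : 𝓞 K) ∉ v.asIdeal
  classes : ∀ C : ClassGroup (𝓞 K), ∃ m k : ℕ, ¬ p ∣ m ∧ C ^ m = cl w ^ k
  units : ∃ (e : ℕ) (𝔟 : Ideal (𝓞 K)), w.asIdeal ^ e * 𝔟 = Ideal.span {(p : 𝓞 K)} ∧
    IsCoprime w.asIdeal 𝔟 ∧ ∀ x : 𝓞 K, IsCoprime (Ideal.span {x}) (𝔟 * ∏ v ∈ S, v.asIdeal) →
      ∃ (α y : 𝓞 K) (k : ℕ), Ideal.span {α} = w.asIdeal ^ k ∧
        x * α - y ^ p ∈ 𝔟 ^ 3 * ∏ v ∈ S, v.asIdeal

end def2

open Pool.Agent.H517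

variable {K : Type} [Field K] [NumberField K] {p : ℕ} [hp : Fact p.Prime]

theorem prod_le_iff {S : Finset (HeightOneSpectrum (𝓞 K))} (v : HeightOneSpectrum (𝓞 K)) :
    (∏ u ∈ S, u.asIdeal) ≤ v.asIdeal ↔ v ∈ S := by
  constructor
  · intro h
    obtain ⟨u, hu, huv⟩ := (v.isPrime.prod_le).1 h
    have : u = v := HeightOneSpectrum.ext (u.isMaximal.eq_of_le v.isPrime.ne_top huv)
    exact this ▸ hu
  · intro h
    exact Ideal.le_of_dvd (Finset.dvd_prod_of_mem _ h)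

theorem rc (h2 : p = 2 → IsEmpty (K →+* ℝ)) {S : Finset (HeightOneSpectrum (𝓞 K))}
    {w : HeightOneSpectrum (𝓞 K)} (h : Generates p S w) :
    Pool.Agent.H517.S.RC p {v | (p : 𝓞 K) ∈ v.asIdeal ∨ v ∈ S} w := by
  obtain ⟨e, 𝔟, hab, hcop, hun⟩ := h.units
  have h1 := Pool.Agent.H517.S.rc_all h2 hab hcop (𝔫 := ∏ v ∈ S, v.asIdeal) ?_ ?_ h.above
    (B.cls_divisor h.classes) hun
  · simpa only [prod_le_iff] using h1
  · exact Finset.prod_ne_zero_iff.2 fun v _ => v.ne_bot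
  · refine IsCoprime.prod_right fun v hv => ?_
    rw [Ideal.isCoprime_iff_sup_eq]
    have h3 : ¬ Ideal.span {(p : 𝓞 K)} ≤ v.asIdeal := by
      rw [Ideal.span_singleton_le_iff_mem]
      exact h.tame v hv
    exact v.isMaximal.1.2 _ (lt_of_le_of_ne le_sup_right fun h4 => h3 (by
      rw [h4]; exact le_sup_left))

/-- the fields `ℚ(√(1 - 4p))` -/
theorem quadratic (h2 : finrank ℚ K = 2) (h : ∃ α : K, α ^ 2 - α + p = 0) :
    IsEmpty (K →+* ℝ) ∧ ∀ w : HeightOneSpectrum (𝓞 K), (p : 𝓞 K) ∈ w.asIdeal →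
      Generates p ∅ w := by
  obtain ⟨a, ha⟩ := h
  have hint : IsIntegral ℤ a := by
    refine ⟨Polynomial.X ^ 2 - Polynomial.X + Polynomial.C (p : ℤ), by monicity!, ?_⟩
    simpa using ha
  obtain ⟨α, hα0⟩ : ∃ α : 𝓞 K, α = ⟨a, hint⟩ := ⟨_, rfl⟩
  have hα1 : algebraMap (𝓞 K) K α = a := by rw [hα0]; rfl
  have hα : α ^ 2 - α + p = 0 := by
    apply FaithfulSMul.algebraMap_injective (𝓞 K) K
    rw [map_add, map_sub, map_pow, map_natCast, map_zero, hα1, ha]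
  obtain ⟨β, hβ0⟩ : ∃ β : 𝓞 K, β = 1 - α := ⟨_, rfl⟩
  have hβ : β ^ 2 - β + p = 0 := by rw [hβ0]; linear_combination hα
  obtain ⟨w₁, hw₁⟩ := B.exists_pl (p := p) h2 hα
  obtain ⟨w₂, hw₂⟩ := B.exists_pl (p := p) h2 hβ
  have hsum : α + β = 1 := by rw [hβ0]; ring
  have hmul : α * β = p := by rw [hβ0]; linear_combination -hα
  have hcop : IsCoprime w₁.asIdeal w₂.asIdeal := by
    rw [hw₁, hw₂, Ideal.isCoprime_span_singleton_iff]
    exact ⟨1, 1, by rw [one_mul, one_mul, hsum]⟩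
  have hab : w₁.asIdeal * w₂.asIdeal = Ideal.span {(p : 𝓞 K)} := by
    rw [hw₁, hw₂, Ideal.span_singleton_mul_span_singleton, hmul]
  have hcl := B.class_lt h2 hp.out hα
  refine ⟨B.no_real hp.out.one_le hα, fun w hw => ?_⟩
  have hw' : w = w₁ ∨ w = w₂ := by
    have h3 : w₁.asIdeal * w₂.asIdeal ≤ w.asIdeal := by
      rw [hab, Ideal.span_singleton_le_iff_mem]
      exact hw
    rcases (w.isPrime.mul_le).1 h3 with h4 | h4
    · exact Or.inl (HeightOneSpectrum.ext (w₁.isMaximal.eq_of_le w.isPrime.ne_top h4)).symm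
    · exact Or.inr (HeightOneSpectrum.ext (w₂.isMaximal.eq_of_le w.isPrime.ne_top h4)).symm
  rcases hw' with rfl | rfl
  · refine ⟨hw, by simp, B.class_cond hcl w, 1, w₂.asIdeal, by rw [pow_one, hab], hcop, ?_⟩
    intro x hx
    rw [Finset.prod_empty, mul_one] at hx
    obtain ⟨α', y, k, h3, h4⟩ := B.unit_cond h2 hα hsum hw₁ hw₂ x hx
    exact ⟨α', y, k, h3, by rwa [Finset.prod_empty, mul_one]⟩
  · refine ⟨hw, by simp, B.class_cond hcl w, 1, w₁.asIdeal, by rw [pow_one, mul_comm, hab],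
      hcop.symm, ?_⟩
    intro x hx
    rw [Finset.prod_empty, mul_one] at hx
    obtain ⟨α', y, k, h3, h4⟩ := B.unit_cond h2 hβ (by rw [add_comm, hsum]) hw₂ hw₁ x hx
    exact ⟨α', y, k, h3, by rwa [Finset.prod_empty, mul_one]⟩

/-- the field `ℚ` -/
theorem rational {q : ℕ} [hq : Fact q.Prime] (hpq : p ≠ q)
    (hc : q % p = 1 → ∀ y : ZMod q, y ^ p ≠ p) {w v : HeightOneSpectrum (𝓞 ℚ)}
    (hw : (p : 𝓞 ℚ) ∈ w.asIdeal) (hv : (q : 𝓞 ℚ) ∈ v.asIdeal) : Generates p {v} w := by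
  refine ⟨hw, ?_, fun C => ⟨1, 0, hp.out.one_lt.ne' ∘ Nat.dvd_one.1, by
    rw [Pool.Agent.H517.S.cls_rat C, one_pow, pow_zero]⟩, 1, ⊤, ?_, ?_, ?_⟩
  · intro u hu
    rw [Finset.mem_singleton] at hu
    subst hu
    have h1 := Pool.Agent.H517.S.mem_iff_rat hq.out hv (p : ℤ)
    rw [Int.cast_natCast] at h1
    rw [h1]
    intro h2
    exact hpq ((Nat.prime_dvd_prime_iff_eq hq.out hp.out).1 (by exact_mod_cast h2)).symm
  · rw [pow_one, Ideal.mul_top, Pool.Agent.H517.S.eq_span_rat hp.out hw]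
  · rw [← Ideal.one_eq_top]
    exact isCoprime_one_right
  · intro x hx
    rw [Finset.prod_singleton, ← Ideal.one_eq_top, one_mul] at hx
    obtain ⟨α, y, k, h1, h2⟩ := Pool.Agent.H517.S.units_rat hpq hc hw hv x hx
    exact ⟨α, y, k, h1, by rwa [Finset.prod_singleton, ← Ideal.one_eq_top, one_pow, one_mul]⟩


end Pool.Agent.H517.S
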