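import Pool.Agent.H517.S.Fm

/-!
# Cocycles over the towers
-/

set_option autoImplicit false
set_option linter.unusedSectionVars false

namespace Pool.Agent.H517.S

open NumberField IsDedekindDomain Pool.Agent.W401.Cheb Pool.Agent.NH7.Sch
open IsLocalRing Matrix Module
open Pool.Agent.N817.PF (InI cong mem_cong)

variable {p : ℕ} [hp : Fact p.Prime]

theorem isAdic_padicInt : IsAdic (maximalIdeal ℤ_[p]) := by
  have h0 : ∀ n : ℕ, ((maximalIdeal ℤ_[p] ^ n : Ideal ℤ_[p]) : Set ℤ_[p]) =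
      Metric.closedBall 0 ((p : ℝ) ^ (-n : ℤ)) := by
    intro n
    ext x
    rw [mem_closedBall_zero_iff, PadicInt.norm_le_pow_iff_mem_span_pow,
      PadicInt.maximalIdeal_eq_span_p, Ideal.span_singleton_pow]
    rfl
  have hpos : ∀ n : ℕ, (0 : ℝ) < (p : ℝ) ^ (-n : ℤ) := fun n =>
    zpow_pos (by exact_mod_cast hp.out.pos) _
  rw [isAdic_iff]
  constructor
  · intro n
    rw [h0]
    exact IsUltrametricDist.isOpen_closedBall _ (hpos n).ne'
  · intro s hs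
    obtain ⟨ε, hε, hs⟩ := Metric.mem_nhds_iff.1 hs
    obtain ⟨k, hk⟩ := PadicInt.exists_pow_neg_lt p hε
    refine ⟨k, ?_⟩
    rw [h0]
    exact (Metric.closedBall_subset_ball hk).trans hs

variable {G : Type*} [Group G] [TopologicalSpace G]

/-- the matrices `(u, c; 0, 1)` -/
noncomputable def mat {u : G →* ℤ_[p]ˣ} {c : G → ℤ_[p]} (hc : ∀ σ τ, c (σ * τ) = c σ + u σ * c τ) :
    G →* Matrix (Fin 2) (Fin 2) ℤ_[p] where
  toFun σ := !![(u σ : ℤ_[p]), c σ; 0, 1]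
  map_one' := by
    have h1 := hc 1 1
    rw [mul_one, map_one, Units.val_one, one_mul] at h1
    have h2 : c 1 = 0 := left_eq_add.1 h1
    ext i j
    fin_cases i <;> fin_cases j <;> simp [h2]
  map_mul' σ τ := by
    ext i j
    fin_cases i <;> fin_cases j <;> simp [Matrix.mul_apply, Fin.sum_univ_two, hc, add_comm]

/-- **Vanishing of cocycles**, abstract form. -/
theorem zero_of [IsTopologicalGroup G] {I : Set G} {D : Subgroup G}
    (hns : ∀ N : Subgroup G, N.Normal → IsOpen (N : Set G) → N.index = p → (∀ σ ∈ I, σ ∈ N) →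
      ∃ σ ∈ D, σ ∉ N)
    {u : G →* ℤ_[p]ˣ} (hu : Continuous fun σ => (u σ : ℤ_[p]))
    (hu1 : ∀ σ, ((u σ : ℤ_[p]) - 1) ∈ maximalIdeal ℤ_[p]) (huI : ∀ σ ∈ I, u σ = 1)
    {c : G → ℤ_[p]} (hcc : Continuous c) (hc : ∀ σ τ, c (σ * τ) = c σ + u σ * c τ)
    (hcI : ∀ σ ∈ I, c σ = 0) (hcD : ∀ σ ∈ D, c σ = 0) : ∀ σ, c σ = 0 := by
  set ρ : G →* GL (Fin 2) ℤ_[p] := (mat hc).toHomUnits with hρ
  have hval : ∀ σ, (ρ σ : Matrix (Fin 2) (Fin 2) ℤ_[p]) = !![(u σ : ℤ_[p]), c σ; 0, 1] :=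
    fun σ => rfl
  have hcont : ∀ i j, Continuous fun σ => (ρ σ : Matrix (Fin 2) (Fin 2) ℤ_[p]) i j := by
    intro i j
    simp only [hval]
    fin_cases i <;> fin_cases j
    · exact hu
    · exact hcc
    · exact continuous_const
    · exact continuous_const
  have hres : ∀ σ, ∃ N : ℕ, InI (maximalIdeal ℤ_[p])
      (((ρ σ : Matrix (Fin 2) (Fin 2) ℤ_[p]) - 1) ^ N) := by
    intro σ
    refine ⟨2, ?_⟩
    obtain ⟨a, ha⟩ : ∃ a, a = (u σ : ℤ_[p]) - 1 := ⟨_, rfl⟩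
    have h1 : (ρ σ : Matrix (Fin 2) (Fin 2) ℤ_[p]) - 1 = !![a, c σ; 0, 0] := by
      rw [hval, ha]
      ext i j
      fin_cases i <;> fin_cases j <;> simp
    have ha' : a ∈ maximalIdeal ℤ_[p] := ha ▸ hu1 σ
    have h2 : !![a, c σ; 0, 0] ^ 2 = !![a * a, a * c σ; 0, 0] := by
      rw [pow_two]
      ext i j
      fin_cases i <;> fin_cases j <;> simp [Matrix.mul_apply, Fin.sum_univ_two]
    rw [h1, h2]
    intro i j
    fin_cases i <;> fin_cases j
    · exact Ideal.mul_mem_right _ _ ha'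
    · exact Ideal.mul_mem_right _ _ ha'
    · exact zero_mem _
    · exact zero_mem _
  have hρI : ∀ σ ∈ I, ρ σ = 1 := by
    intro σ hσ
    apply Units.ext
    rw [hval, huI σ hσ, hcI σ hσ]
    ext i j
    fin_cases i <;> fin_cases j <;> simp
  have hfin : Finite (ResidueField ℤ_[p]) := by
    have h1 : Finite (ZMod p) := inferInstance
    exact Finite.of_equiv _ (PadicInt.residueField (p := p)).symm.toEquiv
  have hpm : (p : ℤ_[p]) ∈ maximalIdeal ℤ_[p] := by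
    rw [PadicInt.maximalIdeal_eq_span_p]
    exact Ideal.mem_span_singleton_self _
  intro σ
  have h1 : ∀ m : ℕ, c σ ∈ maximalIdeal ℤ_[p] ^ m := by
    intro m
    obtain ⟨δ, hδ, h⟩ := Pool.Agent.N817.PF.dense hp.out isAdic_padicInt hpm hfin hcont hres hρI hns
      m σ
    have h2 : c (δ⁻¹ * σ) ∈ maximalIdeal ℤ_[p] ^ m := by
      have h3 := mem_cong.1 h 0 1
      rw [hval] at h3
      simpa using h3
    have h4 : c σ = c δ + u δ * c (δ⁻¹ * σ) := by
      rw [← hc, mul_inv_cancel_left]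
    rw [h4, hcD δ hδ, zero_add]
    exact Ideal.mul_mem_left _ _ h2
  have h2 : c σ ∈ (⨅ m : ℕ, maximalIdeal ℤ_[p] ^ m : Ideal ℤ_[p]) := by
    rw [Ideal.mem_iInf]
    exact h1
  rw [Ideal.iInf_pow_eq_bot_of_isLocalRing _ (maximalIdeal.isMaximal ℤ_[p]).ne_top] at h2
  exact h2

end Pool.Agent.H517.S
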