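import Pool.Agent.H517.B.Key

/-!
# The criterion of ray class groups, with a set of ramified primes
-/

set_option autoImplicit false
set_option linter.unusedSectionVars false

namespace Pool.Agent.H517.S

open NumberField IsDedekindDomain Pool.Agent.W401.Cheb Pool.Agent.NH7.Sch
open Pool.Agent.Q92.AR (Dv prin art Ray Pr Pos Cong Unramified nmD nu frob frob_spec art_single
  IsFrobenius)
open Pool.Agent.Q20.EX (CongAt Un TrivAt Split S_NRM)
open Pool.Agent.H517.B (exists_psi unr_of split_of recip_split frob_split)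

variable {K : Type} [Field K] [NumberField K] (p : ℕ) [hp : Fact p.Prime]

/-- The ray class condition: modulo `p`, the ray class groups of conductors which are divisible only by
the primes in `S` are generated by `w`. -/
def RC (S : Set (HeightOneSpectrum (𝓞 K))) (w : HeightOneSpectrum (𝓞 K)) : Prop :=
  ∃ N₁ : ℕ, N₁ ≠ 0 ∧ ∀ N : ℕ, N ≠ 0 → N₁ ∣ N → ∀ D ∈ Pr K N, ∃ (m : ℕ) (x : Kˣ) (D' : Dv K) (k : ℤ),
    ¬ p ∣ m ∧ Pos (x : K) ∧
    (∀ v : HeightOneSpectrum (𝓞 K), (N : 𝓞 K) ∈ v.asIdeal → v ≠ w → v.valuation K (x : K) = 1) ∧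
    (∀ v : HeightOneSpectrum (𝓞 K), (N : 𝓞 K) ∈ v.asIdeal → v ∈ S → v ≠ w →
      v.valuation K ((x : K) - 1) ≤ v.valuation K (N : K)) ∧
    m • D = prin x + p • D' + k • Finsupp.single w 1

variable {p}

/-- **The criterion.** -/
theorem key {S : Set (HeightOneSpectrum (𝓞 K))} {w : HeightOneSpectrum (𝓞 K)} (hrc : RC p S w)
    {h : GK K → ZMod p} (hc : Continuous h)
    (hm : ∀ σ τ, h (σ * τ) = h σ + h τ)
    (hI : ∀ (Q : Ideal (OO K)) (v : HeightOneSpectrum (𝓞 K)), Q.IsMaximal →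
      Q.comap (algebraMap (𝓞 K) (OO K)) = v.asIdeal → v ∉ S → v ≠ w → ∀ σ ∈ Inr Q, h σ = 0)
    (hD : ∀ Q : Ideal (OO K), Q.IsMaximal → Q.comap (algebraMap (𝓞 K) (OO K)) = w.asIdeal →
      ∀ σ ∈ Dec Q, h σ = 0) : ∀ σ, h σ = 0 := by
  by_contra hcon
  push Not at hcon
  obtain ⟨σ, hσ⟩ := hcon
  obtain ⟨g, hg⟩ := exists_X_one hm hσ
  have hgal := fld_gal hc hm
  have := fld_fin hc hm
  have hnf := NumberField.of_module_finite K (fld hm)
  obtain ⟨hcyc, hcard⟩ := fld_cyc hc hm hg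
  have hwS : Split (fld hm) w := split_of (fld hm) fun Q hQ hQw τ hτ x =>
    fld_triv hm (hD Q hQ hQw τ hτ) x
  have hwU : Unramified (fld hm) w := unr_of (fld hm) fun Q hQ hQw τ hτ x =>
    fld_triv hm (hD Q hQ hQw τ (Inr_le Q hτ)) x
  have hU : ∀ v : HeightOneSpectrum (𝓞 K), v ∉ S → Unramified (fld hm) v := by
    intro v hv
    by_cases hvw : v = w
    · rw [hvw]; exact hwU
    exact unr_of (fld hm) fun Q hQ hQv τ hτ x => fld_triv hm (hI Q v hQ hQv hv hvw τ hτ) x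
  -- a nontrivial element
  set γ := AlgEquiv.restrictNormalHom (F := K) (K₁ := AlgebraicClosure K) (fld hm) g with hγ
  have hγ1 : γ ≠ 1 := by
    intro h1
    have h2 : Nat.card (fld hm ≃ₐ[K] fld hm) = 1 := by
      rw [Nat.card_eq_one_iff_unique]
      refine ⟨⟨fun a b => ?_⟩, ⟨1⟩⟩
      have ha := hcyc a
      have hb := hcyc b
      rw [h1, Subgroup.zpowers_one_eq_bot, Subgroup.mem_bot] at ha hb
      rw [ha, hb]
    rw [hcard] at h2
    exact hp.out.one_lt.ne' h2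
  obtain ⟨ψ, hψ⟩ := exists_psi hcard hγ1
  obtain ⟨N₁, hN₁, hrc⟩ := hrc
  obtain ⟨N, hN, hpN, hRam, hrec⟩ := recip_split ψ hwU N₁ hN₁
  obtain ⟨v, hvB, hvU, hvF⟩ := Pool.Agent.Q14.AR.cheb K (fld hm) γ _
    (Pool.Agent.Q125.AR.finite_dvd (F := K) hN)
  have hDv : (Finsupp.single v 1 : Dv K) ∈ Pr K N := by
    intro u hu
    classical
    rw [Finsupp.single_apply, if_neg]
    rintro rfl
    exact hvB hu
  obtain ⟨m, x, D', k, hpm, hxP, hxU, hxC, hx⟩ := hrc N hN hpN _ hDv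
  have h1 : art ψ (prin x) = 0 := by
    refine hrec x hxP hxU fun u hu hru => hxC u hu ?_ ?_
    · by_contra h2
      exact hru (hU u h2)
    · rintro rfl
      exact hru hwU
  have hpw : ∀ τ : fld hm ≃ₐ[K] fld hm, τ ^ p = 1 := by
    intro τ
    have h5 : τ ^ Nat.card (fld hm ≃ₐ[K] fld hm) = 1 := pow_card_eq_one'
    rwa [hcard] at h5
  have hpart : ∀ D : Dv K, p • art ψ D = 0 := by
    intro D
    rw [← map_nsmul]
    induction D using Finsupp.induction_linear with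
    | zero => rw [smul_zero, map_zero]
    | add a b ha hb => rw [smul_add, map_add, ha, hb, add_zero]
    | single u n =>
      have h5 : p • (Additive.ofMul (ψ (frob (fld hm) u)) : Additive ℂˣ) = 0 := by
        rw [← ofMul_pow, ← map_pow, hpw, map_one, ofMul_one]
      rw [map_nsmul, art_single]
      generalize (Additive.ofMul (ψ (frob (fld hm) u)) : Additive ℂˣ) = y at h5 ⊢
      rw [← natCast_zsmul, ← mul_zsmul, mul_comm, mul_zsmul, natCast_zsmul, h5, zsmul_zero]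
  have h2 : m • art ψ (Finsupp.single v 1) = 0 := by
    rw [← map_nsmul, hx, map_add, map_add, h1, map_nsmul, hpart, map_zsmul, art_single,
      frob_split hwS, map_one, ofMul_one, smul_zero, smul_zero, add_zero, add_zero]
  have h3 : art ψ (Finsupp.single v 1) = 0 := by
    have hcop : Nat.Coprime m p := (Nat.Prime.coprime_iff_not_dvd hp.out).2 hpm |>.symm
    have h4 := (Nat.isCoprime_iff_coprime.2 hcop)
    obtain ⟨a, b, hab⟩ := h4
    have h3' := hpart (Finsupp.single v 1)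
    clear hx hDv
    generalize art ψ (Finsupp.single v 1) = y at h2 h3' ⊢
    have h5 : (1 : ℤ) • y = 0 := by
      rw [← hab, add_zsmul, mul_zsmul, mul_zsmul, natCast_zsmul, natCast_zsmul, h2, h3', zsmul_zero,
        zsmul_zero, add_zero]
    rwa [one_zsmul] at h5
  rw [art_single, one_smul] at h3
  have h4 : ψ (frob (fld hm) v) = 1 := h3
  obtain ⟨τ, hτ⟩ := Pool.Agent.Q92.AR.isFrobenius_conj hvU (frob_spec (M := fld hm) v) hvF
  apply hψ
  rw [hτ, map_mul, map_mul, h4, mul_one, ← map_mul, inv_mul_cancel, map_one]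

/-- **The criterion**, with one decomposition group. -/
theorem key_one {S : Set (HeightOneSpectrum (𝓞 K))} {w : HeightOneSpectrum (𝓞 K)} (hrc : RC p S w)
    {h : GK K → ZMod p} (hc : Continuous h)
    (hm : ∀ σ τ, h (σ * τ) = h σ + h τ)
    (hI : ∀ (Q : Ideal (OO K)) (v : HeightOneSpectrum (𝓞 K)), Q.IsMaximal →
      Q.comap (algebraMap (𝓞 K) (OO K)) = v.asIdeal → v ∉ S → v ≠ w → ∀ σ ∈ Inr Q, h σ = 0)
    {Q : Ideal (OO K)} (hQ : Q.IsMaximal) (hQw : Q.comap (algebraMap (𝓞 K) (OO K)) = w.asIdeal)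
    (hD : ∀ σ ∈ Dec Q, h σ = 0) : ∀ σ, h σ = 0 := by
  refine key hrc hc hm hI ?_
  intro Q' hQ' hQw' σ hσ
  obtain ⟨τ, hτ⟩ := Pool.Agent.NH7.GU.s_cnj K w Q' Q hQ' hQ hQw' hQw
  have h1 : τ * σ * τ⁻¹ ∈ Dec Q := by
    rw [hτ]
    exact (Dec_mv τ σ).1 hσ
  have h3 := hD _ h1
  have h4 : h (τ * σ * τ⁻¹) = h σ := by
    have h5 : h 1 = 0 := by
      have := hm 1 1
      rw [mul_one] at this
      exact left_eq_add.1 this
    have h6 := hm τ τ⁻¹
    rw [mul_inv_cancel, h5] at h6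
    rw [hm, hm, add_right_comm, ← h6, zero_add]
  rwa [h4] at h3

end Pool.Agent.H517.S
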