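import Pool.Agent.H517.S.Unr

/-!
# Potentially unramified representations
-/

set_option autoImplicit false
set_option linter.unusedSectionVars false

namespace Pool.Agent.H517.S

open NumberField IsDedekindDomain Pool.Agent.W401.Cheb Pool.Agent.NH7.Sch
open IsLocalRing Matrix Module
open Pool.Agent.N817.PF (InI cong mem_cong cong_normal cong_index cong_open cong_anti)
open Pool.Agent.NH7.GU (s_cnj Qv Qv_max Qv_comap)

section grp

variable {p : ℕ} [hp : Fact p.Prime]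

theorem exists_core' {G : Type*} [Group G] [TopologicalSpace G] [IsTopologicalGroup G]
    {H M : Subgroup G} (hMH : M ≤ H) (hMn : M.Normal) (hMi : ∃ a : ℕ, M.index = p ^ a)
    (hMo : IsOpen (M : Set G)) {N : Subgroup H} (hN : N.Normal) (hNo : IsOpen (N : Set H))
    (hNi : ∃ b : ℕ, N.index = p ^ b) :
    ∃ C : Subgroup G, C.Normal ∧ IsOpen (C : Set G) ∧ (∃ b : ℕ, C.index = p ^ b) ∧
      (∀ x ∈ C, ∃ h : x ∈ H, (⟨x, h⟩ : H) ∈ N) ∧
      ∀ x : G, (∀ g : G, g * x * g⁻¹ ∈ M ∧ ∀ h : g * x * g⁻¹ ∈ H, (⟨g * x * g⁻¹, h⟩ : H) ∈ N) →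
        x ∈ C := by
  obtain ⟨a, ha⟩ := hMi
  obtain ⟨c, hc⟩ := hNi
  have hp0 : p ≠ 0 := hp.out.ne_zero
  have hMf : M.FiniteIndex := ⟨by rw [ha]; exact pow_ne_zero _ hp0⟩
  have hHf : H.FiniteIndex := Subgroup.finiteIndex_of_le hMH
  have hHo : IsOpen (H : Set G) := Subgroup.isOpen_mono hMH hMo
  have hNf : N.FiniteIndex := ⟨by rw [hc]; exact pow_ne_zero _ hp0⟩
  set N1 : Subgroup G := N.map H.subtype with hN1
  have hN1f : N1.FiniteIndex := ⟨by
    rw [hN1, Subgroup.index_map_subtype]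
    exact mul_ne_zero hNf.index_ne_zero hHf.index_ne_zero⟩
  have hN1o : IsOpen (N1 : Set G) := by
    have h1 : (N1 : Set G) = Subtype.val '' (N : Set H) := by
      rw [hN1, Subgroup.coe_map]
      rfl
    rw [h1]
    exact hHo.isOpenMap_subtype_val _ hNo
  have h0 : ∀ x, x ∈ N1 ⊓ M → ∃ h : x ∈ H, (⟨x, h⟩ : H) ∈ N := by
    rintro x ⟨⟨y, hy, rfl⟩, -⟩
    exact ⟨y.2, hy⟩
  have h1 : ∀ x, x ∈ M → ∀ h : x ∈ H, (⟨x, h⟩ : H) ∈ N → x ∈ N1 ⊓ M :=
    fun x hx h hh => ⟨⟨⟨x, h⟩, hh, rfl⟩, hx⟩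
  have hCf : (N1 ⊓ M).normalCore.FiniteIndex := inferInstance
  refine ⟨(N1 ⊓ M).normalCore, inferInstance, ?_, ?_, ?_, ?_⟩
  · refine Subgroup.isOpen_of_isClosed_of_finiteIndex _ ?_
    refine Subgroup.normalCore_isClosed _ ?_
    exact Subgroup.isClosed_of_isOpen _ (hN1o.inter hMo)
  · have h2 : IsPGroup p (G ⧸ (N1 ⊓ M).normalCore) := by
      rw [IsPGroup]
      intro g
      obtain ⟨x, rfl⟩ := QuotientGroup.mk_surjective g
      refine ⟨a + c, ?_⟩
      rw [← QuotientGroup.mk_pow, QuotientGroup.eq_one_iff]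
      have hx : x ^ p ^ a ∈ M := by
        rw [← ha]; exact Subgroup.pow_index_mem _ _
      intro b
      have hy : b * x ^ p ^ a * b⁻¹ ∈ M := hMn.conj_mem _ hx b
      have e : b * x ^ p ^ (a + c) * b⁻¹ = (b * x ^ p ^ a * b⁻¹) ^ p ^ c := by
        rw [conj_pow, ← pow_mul, ← pow_add]
      rw [e]
      refine h1 _ (M.pow_mem hy _) (H.pow_mem (hMH hy) _) ?_
      have h3 := N.pow_index_mem (⟨b * x ^ p ^ a * b⁻¹, hMH hy⟩ : H)
      rw [hc] at h3
      exact h3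
    obtain ⟨b, hb⟩ := IsPGroup.iff_card.1 h2
    exact ⟨b, hb⟩
  · intro x hx
    exact h0 x (Subgroup.normalCore_le _ hx)
  · intro x hx g
    exact h1 _ (hx g).1 (hMH (hx g).1) ((hx g).2 _)

lemma pow_card_of_mem {G : Type*} [Group G] (Γ : Subgroup G) [Finite Γ] {x : G} (hx : x ∈ Γ) :
    x ^ Nat.card Γ = 1 := by
  have h := pow_card_eq_one' (x := (⟨x, hx⟩ : Γ))
  exact congrArg Subtype.val h

/-- representatives modulo a normal subgroup of finite index -/
lemma exists_reps {G : Type*} [Group G] {N : Subgroup G} [N.FiniteIndex] (X : Set G) :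
    ∃ R : Set G, R.Finite ∧ R ⊆ X ∧ ∀ x ∈ X, ∃ r ∈ R, r⁻¹ * x ∈ N := by
  classical
  by_cases hX : X.Nonempty
  · obtain ⟨x₀, hx₀⟩ := hX
    have hfin : Finite (G ⧸ N) := inferInstance
    set f : G ⧸ N → G := fun q => if h : ∃ x ∈ X, (QuotientGroup.mk x : G ⧸ N) = q then h.choose else x₀
      with hf
    refine ⟨Set.range f, Set.finite_range f, ?_, ?_⟩
    · rintro _ ⟨q, rfl⟩
      by_cases h : ∃ x ∈ X, (QuotientGroup.mk x : G ⧸ N) = q
      · simp only [hf, h, dif_pos]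
        exact h.choose_spec.1
      · simp only [hf, h, dif_neg, not_false_iff]
        exact hx₀
    · intro x hx
      refine ⟨f (QuotientGroup.mk x), ⟨_, rfl⟩, QuotientGroup.eq.1 ?_⟩
      have h : ∃ y ∈ X, (QuotientGroup.mk y : G ⧸ N) = QuotientGroup.mk x := ⟨x, hx, rfl⟩
      simp only [hf, h, dif_pos]
      exact h.choose_spec.2
  · refine ⟨∅, Set.finite_empty, Set.empty_subset _, fun x hx => (hX ⟨x, hx⟩).elim⟩

end grp

section mat

variable {A : Type*} [CommRing A] [IsLocalRing A] [IsNoetherianRing A] {n : ℕ}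

theorem gl_eq_one {y : GL (Fin n) A}
    (h : ∀ m : ℕ, ∃ m' ≥ m, InI (maximalIdeal A ^ m') ((y : Matrix (Fin n) (Fin n) A) - 1)) :
    y = 1 := by
  have hzero : (y : Matrix (Fin n) (Fin n) A) - 1 = 0 := by
    ext i j
    have h1 : ((y : Matrix (Fin n) (Fin n) A) - 1) i j ∈ (⨅ m : ℕ, maximalIdeal A ^ m : Ideal A) := by
      rw [Submodule.mem_iInf]
      intro m
      obtain ⟨m', hm, hm'⟩ := h m
      exact Ideal.pow_le_pow_right hm (hm' i j)
    rw [Ideal.iInf_pow_eq_bot_of_isLocalRing _ (Ideal.IsPrime.ne_top inferInstance)] at h1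
    exact h1
  exact Units.ext (sub_eq_zero.1 hzero)

end mat

variable {K : Type} [Field K] [NumberField K] {p : ℕ} [hp : Fact p.Prime]

theorem mv_mul (g h : GK K) (Q : Ideal (OO K)) : mv (g * h) Q = mv g (mv h Q) := by
  ext x
  rw [mem_mv, mem_mv, mem_mv, _root_.mul_inv_rev, mul_smul]

theorem exists_below {Q : Ideal (OO K)} (hQ : Q.IsMaximal) :
    ∃ v : HeightOneSpectrum (𝓞 K), Q.comap (algebraMap (𝓞 K) (OO K)) = v.asIdeal := by
  have hRm : (Q.comap (algebraMap (𝓞 K) (OO K))).IsMaximal :=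
    Ideal.isMaximal_comap_of_isIntegral_of_isMaximal Q
  exact ⟨⟨Q.comap (algebraMap (𝓞 K) (OO K)), hRm.isPrime,
    Ideal.IsMaximal.ne_bot_of_isIntegral_int _⟩, rfl⟩

section rep

variable {A : Type} [CommRing A] [IsLocalRing A] [IsNoetherianRing A] [TopologicalSpace A] {n : ℕ}

/-- a common exponent for the images of the inertia groups -/
theorem exists_exp {S : Set (HeightOneSpectrum (𝓞 K))} (hSf : S.Finite)
    {w : HeightOneSpectrum (𝓞 K)} {H M : Subgroup (GK K)} (hMH : M ≤ H) (hMn : M.Normal)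
    (hMf : M.FiniteIndex) {ρ : H →* GL (Fin n) A}
    (hur : ∀ σ : H, (σ : GK K) ∈ IS S w → ρ σ = 1)
    (hI : ∀ Q : Ideal (OO K), Q.IsMaximal → (ρ '' {σ : H | (σ : GK K) ∈ Inr Q}).Finite) :
    ∃ E : ℕ, E ≠ 0 ∧ ∀ Q : Ideal (OO K), Q.IsMaximal → ∀ σ : H, (σ : GK K) ∈ Inr Q →
      ρ σ ^ E = 1 := by
  classical
  have hfin : Finite (GK K ⧸ M) := inferInstance
  let _ := Fintype.ofFinite (GK K ⧸ M)
  set Γ : Ideal (OO K) → Subgroup (GL (Fin n) A) := fun Q => ((Inr Q).comap H.subtype).map ρ with hΓ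
  have hΓf : ∀ Q : Ideal (OO K), Q.IsMaximal → Finite (Γ Q) := by
    intro Q hQ
    exact (hI Q hQ)
  have hPf : (S ∪ {w}).Finite := hSf.union (Set.finite_singleton w)
  set E : ℕ := ∏ v ∈ hPf.toFinset, ∏ c : GK K ⧸ M, Nat.card (Γ (mv c.out (Qv v))) with hE
  refine ⟨E, ?_, ?_⟩
  · refine Finset.prod_ne_zero_iff.2 fun v _ => Finset.prod_ne_zero_iff.2 fun c _ => ?_
    have := hΓf _ (mv_max c.out (Qv_max v))
    exact Nat.card_pos.ne'
  · intro Q hQ σ hσ
    obtain ⟨v, hv⟩ := exists_below hQ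
    by_cases hvP : v ∈ S ∪ {w}
    · obtain ⟨g, hg⟩ := s_cnj K v (Qv v) Q (Qv_max v) hQ (Qv_comap v) hv
      set c : GK K ⧸ M := QuotientGroup.mk g with hc
      set r := c.out with hr
      have hgr : g * r⁻¹ ∈ M := by
        have h1 : r⁻¹ * g ∈ M := by
          rw [← QuotientGroup.eq, hr, QuotientGroup.out_eq']
        have h2 := hMn.conj_mem _ h1 r
        have e : r * (r⁻¹ * g) * r⁻¹ = g * r⁻¹ := by group
        rwa [e] at h2
      set m : GK K := g * r⁻¹ with hm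
      have hgm : g = m * r := by rw [hm]; group
      have hQm : Q = mv m (mv r (Qv v)) := by rw [hg, ← mv_mul, ← hgm]
      set m' : H := ⟨m, hMH hgr⟩ with hm'
      have h1 : ((m'⁻¹ * σ * m' : H) : GK K) ∈ Inr (mv r (Qv v)) := by
        rw [Inr_mv m, ← hQm]
        have e : m * ((m'⁻¹ * σ * m' : H) : GK K) * m⁻¹ = σ := by
          show m * (m⁻¹ * (σ : GK K) * m) * m⁻¹ = σ
          group
        rw [e]
        exact hσ
      have := hΓf _ (mv_max r (Qv_max v))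
      have h3 : ρ (m'⁻¹ * σ * m') ∈ Γ (mv r (Qv v)) :=
        Subgroup.mem_map_of_mem ρ (Subgroup.mem_comap.2 h1)
      have h2 : ρ (m'⁻¹ * σ * m') ^ Nat.card (Γ (mv r (Qv v))) = 1 := pow_card_of_mem _ h3
      have h4 : ρ σ ^ Nat.card (Γ (mv r (Qv v))) = 1 := by
        have e : ρ σ = ρ m' * ρ (m'⁻¹ * σ * m') * (ρ m')⁻¹ := by
          rw [← map_inv, ← map_mul, ← map_mul]
          congr 1
          group
        rw [e, conj_pow, h2, mul_one, mul_inv_cancel]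
      have h5 : Nat.card (Γ (mv r (Qv v))) ∣ E := by
        rw [hE]
        refine Dvd.dvd.trans ?_ (Finset.dvd_prod_of_mem _ (hPf.mem_toFinset.2 hvP))
        exact Finset.dvd_prod_of_mem (fun c : GK K ⧸ M => Nat.card (Γ (mv c.out (Qv v))))
          (Finset.mem_univ c)
      obtain ⟨l, hl⟩ := h5
      rw [hl, pow_mul, h4, one_pow]
    · rw [Set.mem_union, not_or] at hvP
      rw [hur σ ⟨Q, v, hQ, hv, hvP.1, hvP.2, hσ⟩, one_pow]

end rep

end Pool.Agent.H517.S
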