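import Pool.Agent.H517.S.Fm

/-!
# Decomposition groups modulo inertia groups, and the everywhere unramified abelian extensions
-/

set_option autoImplicit false
set_option linter.unusedSectionVars false

namespace Pool.Agent.H517.S

open NumberField IsDedekindDomain Pool.Agent.W401.Cheb Pool.Agent.NH7.Sch
open Pool.Agent.NH7.GU (res_aux res_pow frob_pow fr fr_spec s_cnj)
open Pool.Agent.Q92.AR (Dv prin art Ray Pr Pos Cong Unramified nmD nu frob frob_spec art_single
  IsFrobenius)
open Pool.Agent.H517.B (unr_of recip_split)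

variable {K : Type} [Field K] [NumberField K]

/-- the field of an open normal subgroup -/
theorem exists_fld {C : Subgroup (GK K)} (hC : C.Normal) (hCo : IsOpen (C : Set (GK K))) :
    ∃ M : IntermediateField K (AlgebraicClosure K), IsGalois K M ∧ FiniteDimensional K M ∧
      M.fixingSubgroup = C := by
  have hcl : IsClosed (C : Set (GK K)) := Subgroup.isClosed_of_isOpen _ hCo
  set M : IntermediateField K (AlgebraicClosure K) := IntermediateField.fixedField C with hM
  have hfix : M.fixingSubgroup = C := InfiniteGalois.fixingSubgroup_fixedField ⟨C, hcl⟩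
  have h := (InfiniteGalois.isOpen_and_normal_iff_finite_and_isGalois M).1
    ⟨by rw [hfix]; exact hCo, by rw [hfix]; exact hC⟩
  exact ⟨M, h.2, h.1, hfix⟩

/-- a Frobenius element in the decomposition group -/
theorem exists_frob {w : HeightOneSpectrum (𝓞 K)} {Q : Ideal (OO K)} (hQ : Q.IsMaximal)
    (hQw : Q.comap (algebraMap (𝓞 K) (OO K)) = w.asIdeal) :
    ∃ φ ∈ Dec Q, ∀ y : OO K, φ • y - y ^ Ideal.absNorm w.asIdeal ∈ Q := by
  obtain ⟨Q0, hQ0m, hQ0v, hQ0⟩ := fr_spec w
  obtain ⟨g, hg⟩ := s_cnj K w Q0 Q hQ0m hQ hQ0v hQw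
  have hF : ∀ y : OO K, (g * fr w * g⁻¹) • y - y ^ Ideal.absNorm w.asIdeal ∈ Q := by
    intro y
    rw [hg]
    exact Pool.Agent.W401.Frob.frob_conj w (fr w) g Q0 hQ0 y
  exact ⟨_, frob_mem_Dec hQ hF, hF⟩

/-- the decomposition group is generated by a Frobenius element and the inertia group, modulo open
subgroups -/
theorem proc {w : HeightOneSpectrum (𝓞 K)} {Q : Ideal (OO K)} (hQ : Q.IsMaximal)
    (hQw : Q.comap (algebraMap (𝓞 K) (OO K)) = w.asIdeal) {φ : GK K} (hφD : φ ∈ Dec Q)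
    (hφ : ∀ y : OO K, φ • y - y ^ Ideal.absNorm w.asIdeal ∈ Q)
    {C : Subgroup (GK K)} (hC : C.Normal) (hCo : IsOpen (C : Set (GK K))) {g : GK K}
    (hg : g ∈ Dec Q) : ∃ (n : ℕ), ∃ τ ∈ Inr Q, (φ ^ n * τ)⁻¹ * g ∈ C := by
  obtain ⟨M, hMg, hMf, hfix⟩ := exists_fld hC hCo
  have := NumberField.of_module_finite K M
  obtain ⟨n, hn⟩ := res_pow M hQ hQw hg
  set h : GK K := (φ ^ n)⁻¹ * g with hh
  obtain ⟨γ, hγ, hγ'⟩ := res_aux M h
  obtain ⟨τ, hτ, hτγ⟩ := inr_lift M hQ γ (fun a => by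
    rw [map_sub, ← hγ']
    have h1 := Q.sub_mem (hn a) (frob_pow hφD hφ n (algebraMap (𝓞 M) (OO K) a))
    rw [sub_sub_sub_cancel_right] at h1
    have h2 := ((Dec Q).inv_mem ((Dec Q).pow_mem hφD n) _).1 h1
    rw [smul_sub, smul_smul, smul_smul, inv_mul_cancel, one_smul] at h2
    exact h2)
  refine ⟨n, τ, hτ, ?_⟩
  have hk : τ⁻¹ * h ∈ C := by
    rw [← hfix, IntermediateField.mem_fixingSubgroup_iff]
    intro y hy
    have h1 := hγ ⟨y, hy⟩
    have h2 := hτγ ⟨y, hy⟩
    rw [AlgEquiv.mul_apply]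
    have h3 : h y = τ y := h1.trans h2.symm
    rw [h3]
    exact τ.symm_apply_apply y
  have e : (φ ^ n * τ)⁻¹ * g = τ⁻¹ * h := by
    rw [hh]
    group
  rw [e]
  exact hk

/-- commutators of the decomposition group are in the inertia group -/
theorem comm_inr {w : HeightOneSpectrum (𝓞 K)} {Q : Ideal (OO K)} (hQ : Q.IsMaximal)
    (hQw : Q.comap (algebraMap (𝓞 K) (OO K)) = w.asIdeal) {g g' : GK K}
    (hg : g ∈ Dec Q) (hg' : g' ∈ Dec Q) : g * g' * g⁻¹ * g'⁻¹ ∈ Inr Q := by
  have hmain : ∀ a : OO K, (g * g') • a - (g' * g) • a ∈ Q := by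
    intro a
    obtain ⟨M, hMg, hMf, haM⟩ : ∃ M : IntermediateField K (AlgebraicClosure K), IsGalois K M ∧
        FiniteDimensional K M ∧ (a : AlgebraicClosure K) ∈ M := by
      have hint : IsIntegral K (a : AlgebraicClosure K) :=
        Algebra.IsIntegral.isIntegral _
      have : FiniteDimensional K (IntermediateField.adjoin K {(a : AlgebraicClosure K)}) :=
        IntermediateField.adjoin.finiteDimensional hint
      refine ⟨IntermediateField.normalClosure K (IntermediateField.adjoin K {(a : AlgebraicClosure K)})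
        (AlgebraicClosure K), ?_, inferInstance, ?_⟩
      · exact ⟨⟩
      · exact (IntermediateField.le_normalClosure _)
          (IntermediateField.mem_adjoin_simple_self K (a : AlgebraicClosure K))
    have := NumberField.of_module_finite K M
    have hb : ∃ b : 𝓞 M, algebraMap (𝓞 M) (OO K) b = a := by
      have h1 : IsIntegral ℤ (⟨a, haM⟩ : M) := by
        have h2 := RingOfIntegers.isIntegral_coe a
        exact (isIntegral_algHom_iff (M.val.restrictScalars ℤ) M.val.injective).1 h2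
      exact ⟨⟨_, h1⟩, RingOfIntegers.ext rfl⟩
    obtain ⟨b, rfl⟩ := hb
    obtain ⟨n, hn⟩ := res_pow M hQ hQw hg
    obtain ⟨n', hn'⟩ := res_pow M hQ hQw hg'
    set q := Ideal.absNorm w.asIdeal with hq
    set x := algebraMap (𝓞 M) (OO K) b with hx
    have key : ∀ {u u' : GK K} {m m' : ℕ}, u ∈ Dec Q → (∀ a : 𝓞 M, u • (algebraMap (𝓞 M) (OO K) a) -
        (algebraMap (𝓞 M) (OO K) a) ^ (q ^ m) ∈ Q) → (∀ a : 𝓞 M, u' • (algebraMap (𝓞 M) (OO K) a) -
        (algebraMap (𝓞 M) (OO K) a) ^ (q ^ m') ∈ Q) → (u * u') • x - x ^ (q ^ (m + m')) ∈ Q := by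
      intro u u' m m' hu h1 h2
      have h3 := (hu _).1 (h2 b)
      have h4 := h1 (b ^ (q ^ m'))
      rw [map_pow] at h4
      have h5 := Q.add_mem h3 h4
      rw [smul_sub, smul_smul, sub_add_sub_cancel, ← hx, ← pow_mul, ← pow_add, add_comm m' m] at h5
      exact h5
    have e1 := key hg hn hn'
    have e2 := key hg' hn' hn
    rw [add_comm n' n] at e2
    have e3 := Q.sub_mem e1 e2
    rwa [sub_sub_sub_cancel_right] at e3
  intro a
  have h1 := hmain ((g' * g)⁻¹ • a)
  rw [smul_smul, smul_inv_smul] at h1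
  have e : g * g' * g⁻¹ * g'⁻¹ = g * g' * (g' * g)⁻¹ := by group
  rw [e]
  exact h1

end Pool.Agent.H517.S
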