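import Pool.Agent.H517.S.Proc
import Pool.Agent.H517.B.Cls

/-!
# The everywhere unramified abelian extensions
-/

set_option autoImplicit false
set_option linter.unusedSectionVars false

namespace Pool.Agent.H517.S

open NumberField IsDedekindDomain Pool.Agent.W401.Cheb Pool.Agent.NH7.Sch
open Pool.Agent.Q92.AR (Dv prin art Ray Pr Pos Cong Unramified nmD nu frob frob_spec art_single
  IsFrobenius)
open Pool.Agent.H517.B (unr_of recip_split)

variable {K : Type} [Field K] [NumberField K]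

theorem div_card (D : Dv K) : ∃ x : Kˣ, Nat.card (ClassGroup (𝓞 K)) • D = prin x := by
  classical
  set m := Nat.card (ClassGroup (𝓞 K)) with hm
  obtain ⟨I, hI⟩ := Pool.Agent.Q225.AR.exists_ideal D
  have h1 : ClassGroup.mk (K := K) (I ^ m) = 1 := by
    rw [map_pow, hm, pow_card_eq_one']
  obtain ⟨x, hx⟩ := (ClassGroup.mk_eq_one_iff.1 h1).principal
  have h2 : ((I ^ m : (FractionalIdeal (nonZeroDivisors (𝓞 K)) K)ˣ) :
      FractionalIdeal (nonZeroDivisors (𝓞 K)) K) = FractionalIdeal.spanSingleton _ x := by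
    apply FractionalIdeal.coeToSubmodule_injective
    beta_reduce
    rw [hx, FractionalIdeal.coe_spanSingleton]
  have hx0 : x ≠ 0 := by
    rintro rfl
    rw [FractionalIdeal.spanSingleton_zero] at h2
    exact (I ^ m).ne_zero h2
  refine ⟨Units.mk0 x hx0, ?_⟩
  ext v
  have h4 := congrArg (FractionalIdeal.count K v) h2
  rw [Units.val_pow_eq_pow_val, FractionalIdeal.count_pow, hI v] at h4
  rw [Finsupp.smul_apply, Pool.Agent.Q92.AR.prin_apply, Units.val_mk0, nsmul_eq_mul, h4]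

theorem pos_sq (x : Kˣ) : Pos ((x ^ 2 : Kˣ) : K) := by
  intro f
  rw [Units.val_pow_eq_pow_val, map_pow]
  have : f (x : K) ≠ 0 := by
    rw [Ne, map_eq_zero_iff f f.injective]
    exact x.ne_zero
  positivity

/-- the Galois groups of the everywhere unramified abelian extensions are killed by twice the class
number -/
theorem unr_exp {J : Subgroup (GK K)} (hJ : J.Normal) (hJo : IsOpen (J : Set (GK K)))
    (hab : ∀ g g' : GK K, g * g' * g⁻¹ * g'⁻¹ ∈ J)
    (hI : ∀ Q : Ideal (OO K), Q.IsMaximal → ∀ σ ∈ Inr Q, σ ∈ J) (g : GK K) :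
    g ^ (2 * Nat.card (ClassGroup (𝓞 K))) ∈ J := by
  obtain ⟨M, hMg, hMf, hfix⟩ := exists_fld hJ hJo
  have := NumberField.of_module_finite K M
  set r := AlgEquiv.restrictNormalHom (F := K) (K₁ := AlgebraicClosure K) M with hr
  have hker : ∀ σ : GK K, r σ = 1 ↔ σ ∈ J := by
    intro σ
    rw [← hfix, IntermediateField.mem_fixingSubgroup_iff]
    constructor
    · intro h1 x hx
      have h2 := AlgEquiv.restrictNormal_commutes σ M ⟨x, hx⟩
      have h3 : σ.restrictNormal M = 1 := h1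
      rw [h3] at h2
      exact h2.symm
    · intro h1
      ext x
      have h2 := AlgEquiv.restrictNormal_commutes σ M x
      exact h2.trans (h1 x x.2)
  have hsurj : Function.Surjective r := AlgEquiv.restrictNormalHom_surjective _
  have hU : ∀ v : HeightOneSpectrum (𝓞 K), Unramified M v := by
    intro v
    refine unr_of M fun Q hQ _ τ hτ x => ?_
    have h1 := hI Q hQ τ hτ
    rw [← hfix, IntermediateField.mem_fixingSubgroup_iff] at h1
    exact h1 x x.2
  by_contra hcon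
  rw [← hker, map_pow] at hcon
  have hcomm : ∀ a b : M ≃ₐ[K] M, a * b = b * a := by
    intro a b
    obtain ⟨a, rfl⟩ := hsurj a
    obtain ⟨b, rfl⟩ := hsurj b
    have h1 := (hker _).2 (hab a b)
    rw [map_mul, map_mul, map_mul, map_inv, map_inv] at h1
    have h2 := mul_inv_eq_one.1 h1
    exact mul_inv_eq_iff_eq_mul.1 h2
  obtain ⟨ψ, hψ⟩ : ∃ ψ : (M ≃ₐ[K] M) →* ℂˣ, ψ (r g ^ (2 * Nat.card (ClassGroup (𝓞 K)))) ≠ 1 := by
    let _ : CommGroup (M ≃ₐ[K] M) := { (inferInstance : Group (M ≃ₐ[K] M)) with mul_comm := hcomm }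
    exact CommGroup.exists_apply_ne_one_of_hasEnoughRootsOfUnity (M ≃ₐ[K] M) ℂ hcon
  obtain ⟨w⟩ : Nonempty (HeightOneSpectrum (𝓞 K)) := by
    obtain ⟨v, -⟩ := Pool.Agent.Q14.AR.cheb K M (r g) ∅ Set.finite_empty
    exact ⟨v⟩
  obtain ⟨N, hN, -, hRam, hrec⟩ := recip_split ψ (hU w) 1 one_ne_zero
  obtain ⟨v, hvB, hvU, hvF⟩ := Pool.Agent.Q14.AR.cheb K M (r g) _
    (Pool.Agent.Q125.AR.finite_dvd (F := K) hN)
  have hDv : (Finsupp.single v 1 : Dv K) ∈ Pr K N := by
    intro u hu
    classical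
    rw [Finsupp.single_apply, if_neg]
    rintro rfl
    exact hvB hu
  obtain ⟨x, hx⟩ := div_card (K := K) (Finsupp.single v 1)
  have hx2 : prin (x ^ 2) = (2 * Nat.card (ClassGroup (𝓞 K))) • (Finsupp.single v 1 : Dv K) := by
    rw [pow_two, Pool.Agent.Q92.AR.prin_mul, ← hx, mul_nsmul', two_nsmul]
  have h1 : art ψ (prin (x ^ 2)) = 0 := by
    refine hrec (x ^ 2) (pos_sq x) ?_ fun u hu hru => absurd (hU u) hru
    intro u hu _
    have h3 : prin (x ^ 2) u = 0 := by
      rw [hx2, Finsupp.smul_apply, hDv u hu, smul_zero]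
    rw [Pool.Agent.Q125.AR.valuation_eq_exp, h3, neg_zero, WithZero.exp_zero]
  rw [hx2, map_nsmul, art_single, one_smul] at h1
  have h2 : ψ (frob M v) ^ (2 * Nat.card (ClassGroup (𝓞 K))) = 1 := h1
  obtain ⟨τ, hτ⟩ := Pool.Agent.Q92.AR.isFrobenius_conj hvU (frob_spec (M := M) v) hvF
  apply hψ
  have h5 : ψ (r g) = ψ (frob M v) := by
    rw [hτ, map_mul, map_mul, mul_right_comm, ← map_mul, inv_mul_cancel, map_one, one_mul]
  rw [map_pow, h5, h2]

end Pool.Agent.H517.S
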